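import Mathlib

/-!
# Project HC: the Chern classes of smooth subvarieties of codimension three and four, statements (1)

Mathlib only. See `StmB.lean` for the statements with cubic residue symbols.
-/

set_option autoImplicit false

open Polynomial Filter

namespace Pool.Agent.N17.HC

/-- the complex roots with multiplicities -/
noncomputable def rootsOf (P : ℤ[X]) : Multiset ℂ := (P.map (Int.castRingHom ℂ)).roots

/-- the binomial coefficient `x (x - 1) ... (x - N + 1) / N!` -/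
noncomputable def bin (N : ℕ) (x : ℂ) : ℂ := (∏ j ∈ Finset.range N, (x - j)) / N.factorial

/-- the Koszul sum -/
noncomputable def kos (N : ℕ) (s : Multiset ℂ) (x : ℂ) : ℂ :=
  (s.powerset.map fun S => (-1) ^ Multiset.card S * bin N (x - S.sum)).sum

/-- the discriminant of `X ^ 3 - a X ^ 2 + b X - c` -/
def disc3 (a b c : ℤ) : ℤ :=
  a ^ 2 * b ^ 2 - 4 * b ^ 3 - 4 * a ^ 3 * c + 18 * a * b * c - 27 * c ^ 2

/-- `X ^ 3 - a X ^ 2 + b X - c` splits modulo `p` -/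
def Spl3 (p : ℕ) (a b c : ℤ) : Prop :=
  ∃ x y z : ℤ, (p : ℤ) ∣ a - (x + y + z) ∧ (p : ℤ) ∣ b - (x * y + y * z + z * x) ∧
    (p : ℤ) ∣ c - x * y * z

/-- `X ^ 4 - a X ^ 3 + b X ^ 2 - c X + d` splits modulo `p` -/
def Spl4 (p : ℕ) (a b c d : ℤ) : Prop :=
  ∃ x y z t : ℤ, (p : ℤ) ∣ a - (x + y + z + t) ∧
    (p : ℤ) ∣ b - (x * y + x * z + x * t + y * z + y * t + z * t) ∧
    (p : ℤ) ∣ c - (x * y * z + x * y * t + x * z * t + y * z * t) ∧ (p : ℤ) ∣ d - x * y * z * t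

/-- **KOS**: Riemann-Roch on the subvariety gives integrality of the power sums up to powers of the
degree. -/
def S_KOS : Prop :=
  ∀ (N : ℕ) (s : Multiset ℂ) (d : ℤ), s.prod = d →
    (∀ t : ℤ, ∃ z : ℤ, kos N s (N + t) = z) →
    (∀ t : ℤ, ∃ z : ℤ, (s.map fun b => kos N s (N + t - b)).sum = z) →
    ∀ k : ℕ, k + Multiset.card s ≤ N →
      ∃ z : ℤ, (d : ℂ) ^ (k + 1) * (s.map fun b => bin k (-b)).sum = z

/-- **LSP**: local splitting. -/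
def S_LSP : Prop :=
  ∀ (n r : ℕ) (P : ℤ[X]) (c : ℤ), P.Monic → P.natDegree = r →
    (∀ k ≤ n, ∃ z : ℤ, (c : ℂ) * ((rootsOf P).map fun b => bin k (-b)).sum = z) →
    ∀ p : ℕ, p.Prime → r < p → p + r ≤ n + 1 → ¬ (p : ℤ) ∣ c →
      ∃ x : Fin r → ZMod p, P.map (Int.castRingHom (ZMod p)) = ∏ i, (X - C (x i))

/-- **ALG**: algebra of cubic polynomials. -/
def S_ALG : Prop :=
  (∀ (p : ℕ) (a b c : ℤ), Spl3 p a b c → ∃ t : ℤ, (p : ℤ) ∣ disc3 a b c - t ^ 2) ∧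
  (∀ a b c : ℤ, disc3 a b c = 0 → ∃ m : ℤ, m ^ 3 - a * m ^ 2 + b * m - c = 0) ∧
  (∀ a b c m s : ℤ, m ^ 3 - a * m ^ 2 + b * m - c = 0 → disc3 a b c = s ^ 2 →
    ∃ x y z : ℤ, a = x + y + z ∧ b = x * y + y * z + z * x ∧ c = x * y * z)

/-- **ANA**: the bound of Polya and Vinogradov and the trick of Vinogradov. -/
def S_ANA : Prop :=
  ∀ (k : ℕ) (A ε : ℝ), 0 < ε → ∀ᶠ y : ℕ in atTop, ∀ (Q : ℕ) (χ : DirichletCharacter ℂ Q) (B : ℤ),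
    Q ≠ 0 → χ ≠ 1 → (Q : ℝ) ≤ (y : ℝ) ^ (2 * Real.exp (1 / 2) - ε) → B ≠ 0 →
    (|B| : ℝ) ≤ (y : ℝ) ^ A →
    ∃ p : ℕ, p.Prime ∧ k < p ∧ p ≤ y ∧ ¬ (p : ℤ) ∣ B ∧ χ (p : ZMod Q) ≠ 1

/-- **M2** (`Pool.Agent.R852.BC.main2` of the starting library): the bound of Burgess and the trick
of Vinogradov for real characters. -/
def S_M2 : Prop :=
  ∀ (k : ℕ) (A ε : ℝ), 0 < ε → ∀ᶠ y : ℕ in atTop, ∀ D B : ℤ, B ≠ 0 →
    (|B| : ℝ) ≤ (y : ℝ) ^ A → (|D| : ℝ) ≤ (y : ℝ) ^ (4 * Real.exp (1 / 2) - ε) →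
    (∀ p : ℕ, p.Prime → k < p → p ≤ y → ¬ (p : ℤ) ∣ B → ∃ t : ℤ, (p : ℤ) ∣ D - t ^ 2) →
      IsSquare D

/-- **CUB**: cubic polynomials which split modulo almost all small primes split. -/
def S_CUB : Prop :=
  ∀ (k : ℕ) (A ε : ℝ), 0 < ε → ∀ᶠ y : ℕ in atTop, ∀ a b c B : ℤ, B ≠ 0 →
    (|B| : ℝ) ≤ (y : ℝ) ^ A → (|a| : ℝ) ≤ (y : ℝ) ^ A → (|b| : ℝ) ≤ (y : ℝ) ^ A →
    (|c| : ℝ) ≤ (y : ℝ) ^ A → (|disc3 a b c| : ℝ) ≤ (y : ℝ) ^ (4 * Real.exp (1 / 2) - ε) →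
    (∀ p : ℕ, p.Prime → k < p → p ≤ y → ¬ (p : ℤ) ∣ B → Spl3 p a b c) →
    ∃ x y z : ℤ, a = x + y + z ∧ b = x * y + y * z + z * x ∧ c = x * y * z

/-- **QUA**: quartic polynomials which split modulo almost all small primes split. -/
def S_QUA : Prop :=
  ∀ (k : ℕ) (A ε : ℝ), 0 < ε → ∀ᶠ y : ℕ in atTop, ∀ (a b c d B : ℤ) (M : ℝ), B ≠ 0 →
    (|B| : ℝ) ≤ (y : ℝ) ^ A → 1 ≤ M → (|a| : ℝ) ≤ M → (|b| : ℝ) ≤ M → (|c| : ℝ) ≤ M →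
    (|d| : ℝ) ≤ M → 3000 * M ^ 6 ≤ (y : ℝ) ^ (4 * Real.exp (1 / 2) - ε) →
    (∀ p : ℕ, p.Prime → k < p → p ≤ y → ¬ (p : ℤ) ∣ B → Spl4 p a b c d) →
    ∃ x y z t : ℤ, a = x + y + z + t ∧ b = x * y + x * z + x * t + y * z + y * t + z * t ∧
      c = x * y * z + x * y * t + x * z * t + y * z * t ∧ d = x * y * z * t

end Pool.Agent.N17.HC
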