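import Pool.Agent.N17.HC.Stm

set_option autoImplicit false

namespace Pool.Agent.N17.HC

namespace ALG

/-- a rational root of a monic integral cubic is an integer -/
theorem int_root (a b c : ℤ) (u : ℚ) (h : u ^ 3 - a * u ^ 2 + b * u - c = 0) :
    ∃ m : ℤ, m ^ 3 - a * m ^ 2 + b * m - c = 0 := by
  let P : Polynomial ℤ := Polynomial.X ^ 3 - Polynomial.C a * Polynomial.X ^ 2 +
    Polynomial.C b * Polynomial.X - Polynomial.C c
  have hP : P.Monic := by
    have : P = Polynomial.X ^ 3 + (- Polynomial.C a * Polynomial.X ^ 2 +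
      Polynomial.C b * Polynomial.X - Polynomial.C c) := by simp only [P]; ring
    rw [this]
    apply Polynomial.monic_X_pow_add
    have : (- Polynomial.C a * Polynomial.X ^ 2 +
      Polynomial.C b * Polynomial.X - Polynomial.C c : Polynomial ℤ) =
        Polynomial.C (-a) * Polynomial.X ^ 2 + Polynomial.C b * Polynomial.X +
          Polynomial.C (-c) := by
      simp only [Polynomial.C_neg]; ring
    rw [this]
    exact lt_of_le_of_lt Polynomial.degree_quadratic_le (by decide)
  have hroot : Polynomial.aeval u P = 0 := by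
    simp only [P, map_sub, map_add, map_mul, map_pow, Polynomial.aeval_X, Polynomial.aeval_C]
    simpa using h
  obtain ⟨m, hm⟩ := isInteger_of_is_root_of_monic hP hroot
  refine ⟨m, ?_⟩
  have hm' : (m : ℚ) = u := by simpa using hm
  have : ((m ^ 3 - a * m ^ 2 + b * m - c : ℤ) : ℚ) = 0 := by
    push_cast
    rw [hm']
    exact h
  exact_mod_cast this

end ALG

theorem t_ALG : S_ALG := by
  refine ⟨?_, ?_, ?_⟩
  · rintro p a b c ⟨x, y, z, h1, h2, h3⟩
    refine ⟨(x - y) * (y - z) * (z - x), ?_⟩
    have e1 : a ≡ x + y + z [ZMOD p] := (Int.modEq_iff_dvd.2 (by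
      have := dvd_neg.2 h1; simpa using this))
    have e2 : b ≡ x * y + y * z + z * x [ZMOD p] := (Int.modEq_iff_dvd.2 (by
      have := dvd_neg.2 h2; simpa using this))
    have e3 : c ≡ x * y * z [ZMOD p] := (Int.modEq_iff_dvd.2 (by
      have := dvd_neg.2 h3; simpa using this))
    have e4 : disc3 a b c ≡ disc3 (x + y + z) (x * y + y * z + z * x) (x * y * z) [ZMOD p] := by
      unfold disc3
      gcongr
    have e5 : disc3 (x + y + z) (x * y + y * z + z * x) (x * y * z) =
        ((x - y) * (y - z) * (z - x)) ^ 2 := by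
      unfold disc3; ring
    rw [e5] at e4
    have := (Int.modEq_iff_dvd.1 e4.symm)
    exact this
  · intro a b c h
    by_cases hA : a ^ 2 - 3 * b = 0
    · -- triple root
      have hb : b = a ^ 2 / 3 := by omega
      have h3 : (a : ℚ) ^ 2 = 3 * b := by exact_mod_cast (by linarith : a ^ 2 = 3 * b)
      have hB : (2 * (a : ℚ) ^ 3 - 9 * a * b + 27 * c) = 0 := by
        have hd : (disc3 a b c : ℚ) = 0 := by exact_mod_cast h
        unfold disc3 at hd
        push_cast at hd
        have : (2 * (a : ℚ) ^ 3 - 9 * a * b + 27 * c) ^ 2 = 0 := by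
          have h4 : 4 * ((a : ℚ) ^ 2 - 3 * b) ^ 3 = (2 * (a : ℚ) ^ 3 - 9 * a * b + 27 * c) ^ 2 +
            27 * ((a : ℚ) ^ 2 * b ^ 2 - 4 * b ^ 3 - 4 * a ^ 3 * c + 18 * a * b * c - 27 * c ^ 2) -
              0 := by ring
          have h5 : ((a : ℚ) ^ 2 - 3 * b) = 0 := by linarith
          rw [h5] at h4
          linarith
        exact pow_eq_zero_iff (two_ne_zero) |>.1 this
      apply ALG.int_root a b c (a / 3)
      have hc : (c : ℚ) = (9 * a * b - 2 * a ^ 3) / 27 := by linarith
      have hb' : (b : ℚ) = a ^ 2 / 3 := by linarith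
      rw [hc, hb']
      ring
    · apply ALG.int_root a b c ((a * b - 9 * c) / (2 * (a ^ 2 - 3 * b)))
      have hA' : (2 * ((a : ℚ) ^ 2 - 3 * b)) ≠ 0 := by
        have : ((a : ℚ) ^ 2 - 3 * b) ≠ 0 := by exact_mod_cast hA
        simpa using this
      have hd : ((a : ℚ) ^ 2 * b ^ 2 - 4 * b ^ 3 - 4 * a ^ 3 * c + 18 * a * b * c - 27 * c ^ 2) = 0 := by
        have hd : (disc3 a b c : ℚ) = 0 := by exact_mod_cast h
        unfold disc3 at hd
        push_cast at hd
        exact hd
      set D := (2 * ((a : ℚ) ^ 2 - 3 * b)) with hD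
      set N := ((a : ℚ) * b - 9 * c) with hN
      have h0 : N ^ 3 - a * N ^ 2 * D + b * N * D ^ 2 - c * D ^ 3 = 0 := by
        simp only [hD, hN]
        linear_combination (2 * (a : ℚ) ^ 3 - 9 * a * b + 27 * c) * hd
      field_simp
      linear_combination h0
  · intro a b c m s hm hs
    set u := a - m with hu
    set v := b - m * u with hv
    have hc : c = m * v := by
      rw [hv, hu]
      linear_combination -hm
    have hdisc : (u ^ 2 - 4 * v) * (m ^ 2 - u * m + v) ^ 2 = s ^ 2 := by
      rw [← hs]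
      unfold disc3
      have ha : a = m + u := by rw [hu]; ring
      have hb : b = v + m * u := by rw [hv]; ring
      rw [hc, ha, hb]
      ring
    by_cases h0 : m ^ 2 - u * m + v = 0
    · refine ⟨m, m, u - m, by rw [hu]; ring, ?_, ?_⟩
      · have : v = u * m - m ^ 2 := by linarith
        have hb : b = v + m * u := by rw [hv]; ring
        rw [hb, this]; ring
      · rw [hc]
        have : v = u * m - m ^ 2 := by linarith
        rw [this]; ring
    · have hdvd : (m ^ 2 - u * m + v) ^ 2 ∣ s ^ 2 := ⟨u ^ 2 - 4 * v, by rw [← hdisc]; ring⟩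
      have hdvd' : (m ^ 2 - u * m + v) ∣ s := (Int.pow_dvd_pow_iff two_ne_zero).1 hdvd
      obtain ⟨k, hk⟩ := hdvd'
      have hk2 : u ^ 2 - 4 * v = k ^ 2 := by
        have h2 : (m ^ 2 - u * m + v) ^ 2 ≠ 0 := pow_ne_zero 2 h0
        have h3 : (u ^ 2 - 4 * v) * (m ^ 2 - u * m + v) ^ 2 =
            k ^ 2 * (m ^ 2 - u * m + v) ^ 2 := by rw [hdisc, hk]; ring
        exact mul_right_cancel₀ h2 h3
      have hpar : Even (u + k) := by
        have h4 : Even (u ^ 2 - k ^ 2) := ⟨2 * v, by linarith⟩
        have h5 : u ^ 2 - k ^ 2 = (u + k) * (u - k) := by ring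
        rw [h5, Int.even_mul] at h4
        rcases h4 with h4 | h4
        · exact h4
        · have : u + k = (u - k) + 2 * k := by ring
          rw [this]
          exact h4.add (even_two_mul k)
      obtain ⟨x, hx⟩ := hpar
      refine ⟨x, u - x, m, by rw [hu]; ring, ?_, ?_⟩
      · have hb : b = v + m * u := by rw [hv]; ring
        have hk' : k = 2 * x - u := by linarith
        rw [hk'] at hk2
        have hv' : v = x * (u - x) := by linarith
        rw [hb, hv']; ring
      · have hk' : k = 2 * x - u := by linarith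
        rw [hk'] at hk2
        have hv' : v = x * (u - x) := by linarith
        rw [hc, hv']; ring

end Pool.Agent.N17.HC
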