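import Pool.Agent.N17.HC.Stm
import Pool.Agent.R852.BC.Main

/-!
# Project HC, part ANA (helper907): the bound of Polya and Vinogradov and the trick of Vinogradov.
-/

set_option autoImplicit false
set_option maxHeartbeats 4000000

namespace Pool.Agent.N17.HC

namespace ANA

open Finset Filter Pool.Agent.H471R4.BW Pool.Agent.R852.BC

theorem core (k : ℕ) (A ε : ℝ) (hε : 0 < ε) (hε1 : ε ≤ 1) (hA : 0 ≤ A) :
    ∀ᶠ y : ℕ in atTop, ∀ (Q : ℕ) (χ : DirichletCharacter ℂ Q) (B : ℤ),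
    Q ≠ 0 → χ ≠ 1 → (Q : ℝ) ≤ (y : ℝ) ^ (2 * Real.exp (1 / 2) - ε) → B ≠ 0 →
    (|B| : ℝ) ≤ (y : ℝ) ^ A →
    ∃ p : ℕ, p.Prime ∧ k < p ∧ p ≤ y ∧ ¬ (p : ℤ) ∣ B ∧ χ (p : ZMod Q) ≠ 1 := by
  obtain ⟨he1, he2⟩ := exp_half_bounds
  set r := Real.exp (1 / 2) with hr
  obtain ⟨C, hC0, hfin⟩ := final_ineq
  set κ : ℝ := r - ε / 8 with hκ
  have hκ1 : 1 ≤ κ := by rw [hκ]; linarith
  have hκ2 : Real.log κ < 1 / 2 := by
    rw [Real.log_lt_iff_lt_exp (by linarith)]
    rw [hκ, ← hr]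
    linarith
  set γ : ℝ := 1 / 2 - Real.log κ with hγ
  have hγ0 : 0 < γ := by rw [hγ]; linarith
  set β : ℝ := ε / 64 with hβ
  have hβ0 : 0 < β := by positivity
  obtain ⟨C₁, hC₁0, hC₁⟩ := prod_rho_le (β / (1 + A)) (by positivity)
  set F : ℝ := ((max k 2).factorial : ℝ) with hF
  have hF1 : 1 ≤ F := by
    rw [hF]
    exact_mod_cast Nat.factorial_pos _
  set C₂ : ℝ := C₁ * F ^ (β / (1 + A)) with hC₂
  have hC₂0 : 0 < C₂ := by positivity
  -- eventual inequalities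
  have tc : Tendsto (fun q : ℕ => (q : ℝ)) atTop atTop := tendsto_natCast_atTop_atTop
  have f1 : ∀ᶠ x : ℝ in atTop, 4 * (1 + 4 * Real.log x) ≤ x ^ (ε / 8) := by
    have h1 := (isLittleO_log_rpow_atTop (show (0 : ℝ) < ε / 8 by positivity)).def
      (show (0 : ℝ) < 1 / 32 by norm_num)
    have h2 : ∀ᶠ x : ℝ in atTop, 8 ≤ x ^ (ε / 8) :=
      (tendsto_rpow_atTop (show (0 : ℝ) < ε / 8 by positivity)).eventually_ge_atTop _
    filter_upwards [h1, h2, eventually_ge_atTop 1] with x hx hx2 hx1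
    have h3 : 0 ≤ Real.log x := Real.log_nonneg hx1
    rw [Real.norm_eq_abs, Real.norm_eq_abs, abs_of_nonneg h3, abs_of_nonneg (by positivity)] at hx
    linarith
  have f3 : ∀ᶠ x : ℝ in atTop, C₂ ≤ (γ / 2) * x ^ (ε / 64) :=
    ((tendsto_rpow_atTop (show (0 : ℝ) < ε / 64 by positivity)).const_mul_atTop
      (by positivity : (0 : ℝ) < γ / 2)).eventually_ge_atTop _
  have f5 : ∀ᶠ x : ℝ in atTop, 2 ≤ x ^ (ε / 8) :=
    (tendsto_rpow_atTop (by positivity : (0 : ℝ) < ε / 8)).eventually_ge_atTop _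
  have f7 : ∀ᶠ x : ℝ in atTop, 4 * C / γ + 1 ≤ Real.log x :=
    Real.tendsto_log_atTop.eventually_ge_atTop _
  filter_upwards [tc.eventually f1, tc.eventually f3, tc.eventually f5, tc.eventually f7,
    eventually_ge_atTop 16] with y g1 g3 g5 g7 hy16 Q χ B hQ0 hχ1 hQ hB0 hB
  by_contra hcon
  push Not at hcon
  have hyr : (16 : ℝ) ≤ y := by exact_mod_cast hy16
  have hy0 : (0 : ℝ) < y := by linarith
  have hy1 : (1 : ℝ) ≤ y := by linarith
  have hly : 0 < Real.log y := Real.log_pos (by linarith)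
  have hCly : 2 * (C / Real.log y) < γ := by
    have h1 : 4 * C / γ < Real.log y := by linarith
    rw [div_lt_iff₀ hγ0] at h1
    rw [← mul_div_assoc, div_lt_iff₀ hly]
    have : 0 ≤ C := hC0
    linarith [mul_comm γ (Real.log y)]
  have : NeZero Q := ⟨hQ0⟩
  have hQ2 : 2 ≤ Q := by
    rcases Nat.lt_or_ge Q 2 with h | h
    · exfalso
      have hQ1 : Q = 1 := by omega
      subst hQ1
      exact hχ1 (Subsingleton.elim _ _)
    · exact h
  -- the exceptional primes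
  have hprod := exc_prod k y B hB0 χ (fun l hl hkl hly2 _ hlB => hcon l hl hkl hly2 hlB)
  set E : ℝ := 2 * r - ε with hE
  have hE4 : E ≤ 4 := by rw [hE]; linarith
  have hE0 : 0 ≤ E := by rw [hE]; linarith
  have hBr : ((B.natAbs : ℕ) : ℝ) = |(B : ℝ)| := by
    rw [Nat.cast_natAbs]
    push_cast
    rfl
  have hexcp : ∀ q ∈ exc χ y, q.Prime := by
    intro q hq
    unfold exc at hq
    exact (mem_filter.mp hq).2.1
  have hR : ∏ q ∈ exc χ y, rho q ≤ C₂ * (y : ℝ) ^ β := by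
    refine (hC₁ (exc χ y) (F * (y : ℝ) ^ (1 + A)) hexcp ?_).trans ?_
    · calc ((∏ l ∈ exc χ y, l : ℕ) : ℝ) ≤ (((max k 2).factorial * B.natAbs : ℕ) : ℝ) := by
            exact_mod_cast hprod
        _ = F * |(B : ℝ)| := by
            rw [Nat.cast_mul, hBr]
        _ ≤ F * (y : ℝ) ^ (1 + A) := by
            refine mul_le_mul_of_nonneg_left (hB.trans ?_) (by linarith)
            exact Real.rpow_le_rpow_of_exponent_le hy1 (by linarith)
    · rw [Real.mul_rpow (by linarith) (by positivity), ← Real.rpow_mul hy0.le, hC₂]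
      have : (1 + A) * (β / (1 + A)) = β := by field_simp
      rw [this, ← mul_assoc]
  set R := ∏ q ∈ exc χ y, rho q with hRdef
  have hR0 : 0 ≤ R := prod_nonneg fun q hq => by
    have := rho_one_le (hexcp q hq)
    linarith
  set M : ℝ := (Q : ℝ) with hM
  have hM2 : 2 ≤ M := by
    rw [hM]
    exact_mod_cast hQ2
  have hMpos : 0 < M := by linarith
  have hM1 : 1 ≤ M := by linarith
  set T : ℝ := 4 * √M * (1 + Real.log M) with hT
  have hlM : 0 ≤ Real.log M := Real.log_nonneg hM1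
  have hT0 : 0 ≤ T := by positivity
  have hPV : ∀ Y : ℕ, ‖shortSum Q χ Y‖ ≤ T := by
    intro Y
    exact Pool.Agent.H38R2.CG.PVh.sum_le Q χ hQ2 hχ1 Y
  set X : ℕ := ⌈(y : ℝ) ^ (r - ε / 4)⌉₊ with hX
  have hXl : (y : ℝ) ^ (r - ε / 4) ≤ X := Nat.le_ceil _
  have hy54 : (1 : ℝ) ≤ (y : ℝ) ^ (r - ε / 4) := Real.one_le_rpow hy1 (by linarith)
  have hXu : (X : ℝ) ≤ (y : ℝ) ^ κ := by
    have h1 : (X : ℝ) ≤ (y : ℝ) ^ (r - ε / 4) + 1 := (Nat.ceil_lt_add_one (by positivity)).le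
    have h2 : (y : ℝ) ^ κ = (y : ℝ) ^ (ε / 8) * (y : ℝ) ^ (r - ε / 4) := by
      rw [← Real.rpow_add hy0]
      congr 1
      rw [hκ]
      ring
    rw [h2]
    calc (X : ℝ) ≤ 2 * (y : ℝ) ^ (r - ε / 4) := by linarith
      _ ≤ (y : ℝ) ^ (ε / 8) * (y : ℝ) ^ (r - ε / 4) :=
          mul_le_mul_of_nonneg_right g5 (by linarith)
  have hX1 : 1 ≤ X := by
    have : (1 : ℝ) ≤ X := hy54.trans hXl
    exact_mod_cast this
  have hXpos : (0 : ℝ) < X := by exact_mod_cast hX1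
  have hbase : ∀ Y ≤ X, ‖shortSum Q χ Y‖ ≤ 0 * Y + √T * √Y := by
    intro Y _
    rw [zero_mul, zero_add, ← Real.sqrt_mul hT0]
    apply Real.le_sqrt_of_sq_le
    have h1 := hPV Y
    have h2 := shortSum_triv χ Y
    rw [pow_two]
    exact mul_le_mul h1 h2 (norm_nonneg _) hT0
  have hGX := G_bound χ (exc χ y) hexcp X 0 (√T) le_rfl (Real.sqrt_nonneg _) hbase X le_rfl
  rw [← hRdef, zero_mul, zero_add] at hGX
  -- bound for T
  have hTy : T ≤ (y : ℝ) ^ (E / 2 + ε / 8) := by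
    have h1 : √M ≤ (y : ℝ) ^ (E / 2) := by
      calc √M ≤ √((y : ℝ) ^ E) := Real.sqrt_le_sqrt hQ
        _ = (y : ℝ) ^ (E / 2) := by
          rw [Real.sqrt_eq_rpow, ← Real.rpow_mul hy0.le]
          congr 1
          ring
    have h2 : Real.log M ≤ 4 * Real.log y := by
      have h3 := Real.log_le_log hMpos hQ
      rw [Real.log_rpow hy0] at h3
      nlinarith
    calc T ≤ 4 * (y : ℝ) ^ (E / 2) * (1 + 4 * Real.log y) := by
          rw [hT]
          gcongr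
      _ = (y : ℝ) ^ (E / 2) * (4 * (1 + 4 * Real.log y)) := by ring
      _ ≤ (y : ℝ) ^ (E / 2) * (y : ℝ) ^ (ε / 8) := by gcongr
      _ = (y : ℝ) ^ (E / 2 + ε / 8) := by
          rw [← Real.rpow_add hy0]
  have hTs : √T ≤ (y : ℝ) ^ ((E / 2 + ε / 8) / 2) := by
    calc √T ≤ √((y : ℝ) ^ (E / 2 + ε / 8)) := Real.sqrt_le_sqrt hTy
      _ = (y : ℝ) ^ ((E / 2 + ε / 8) / 2) := by
          rw [Real.sqrt_eq_rpow, ← Real.rpow_mul hy0.le]
          congr 1
          ring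
  have hXs : (y : ℝ) ^ ((r - ε / 4) / 2) ≤ √X := by
    calc (y : ℝ) ^ ((r - ε / 4) / 2) = √((y : ℝ) ^ (r - ε / 4)) := by
          rw [Real.sqrt_eq_rpow, ← Real.rpow_mul hy0.le]
          congr 1
          ring
      _ ≤ √X := Real.sqrt_le_sqrt hXl
  have hθ : ‖G χ (exc χ y) X‖ ≤ (γ / 2) * X := by
    refine hGX.trans ?_
    have h1 : R * √T ≤ (γ / 2) * √X := by
      calc R * √T ≤ (C₂ * (y : ℝ) ^ β) * (y : ℝ) ^ ((E / 2 + ε / 8) / 2) :=
            mul_le_mul hR hTs (Real.sqrt_nonneg _) (by positivity)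
        _ = C₂ * (y : ℝ) ^ (β + (E / 2 + ε / 8) / 2) := by
            rw [mul_assoc, ← Real.rpow_add hy0]
        _ ≤ ((γ / 2) * (y : ℝ) ^ (ε / 64)) * (y : ℝ) ^ (β + (E / 2 + ε / 8) / 2) := by gcongr
        _ = (γ / 2) * (y : ℝ) ^ (ε / 64 + (β + (E / 2 + ε / 8) / 2)) := by
            rw [mul_assoc, ← Real.rpow_add hy0]
        _ ≤ (γ / 2) * (y : ℝ) ^ ((r - ε / 4) / 2) := by
            apply mul_le_mul_of_nonneg_left _ (by positivity)
            apply Real.rpow_le_rpow_of_exponent_le hy1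
            rw [hβ, hE]
            linarith
        _ ≤ (γ / 2) * √X := by gcongr
    calc R * (√T * √X) = (R * √T) * √X := by ring
      _ ≤ ((γ / 2) * √X) * √X := mul_le_mul_of_nonneg_right h1 (Real.sqrt_nonneg _)
      _ = (γ / 2) * X := by rw [mul_assoc, Real.mul_self_sqrt hXpos.le]
  have hlogX : Real.log X ≤ κ * Real.log y := by
    have := Real.log_le_log hXpos hXu
    rwa [Real.log_rpow hy0] at this
  have := hfin Q χ y X κ (γ / 2) (by omega) hX1 hκ1 hlogX hθ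
  linarith

end ANA

open ANA Filter in
theorem t_ANA : S_ANA := by
  intro k A ε hε
  have h1 := core k (max A 0) (min ε 1) (lt_min hε one_pos) (min_le_right _ _) (le_max_right _ _)
  filter_upwards [h1, eventually_ge_atTop 1] with y hy hy1 Q χ B hQ hχ hQy hB0 hB
  have hyr : (1 : ℝ) ≤ y := by exact_mod_cast hy1
  refine hy Q χ B hQ hχ (hQy.trans ?_) hB0 (hB.trans ?_)
  · apply Real.rpow_le_rpow_of_exponent_le hyr
    have := min_le_left ε 1
    linarith
  · exact Real.rpow_le_rpow_of_exponent_le hyr (le_max_left _ _)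

end Pool.Agent.N17.HC
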