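import Pool.Agent.N17.HC.StmB
import Pool.Agent.N758.HCB.Bas

/-!
# Project HC, part CHR (helper758): the Dirichlet character of cubic residue symbols
-/

set_option autoImplicit false

namespace Pool.Agent.N17.HC

open Pool.Agent.Y692.QS
open Pool.Agent.Y715.T.Rec (cs nn not_unit)
open Pool.Agent.Y715.T.RecG (Pq cs_of cs_mul cs_pow cs_prod cs_zero_iff cs_comm cs_neg cs_one cs_congr
  cs_spec)
open Pool.Agent.Y405.CT (below nat_int)
open Pool.Agent.N758.HCB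

namespace CHR

theorem lam9_mod (a : ℕ) : lam9 (a % 9) = lam9 a := by
  unfold lam9
  rw [Nat.mod_mod]

theorem lam9_mul {a b : ℕ} (ha : a % 3 ≠ 0) (hb : b % 3 ≠ 0) : lam9 (a * b) = lam9 a + lam9 b := by
  have key : ∀ x y : Fin 9, x.val % 3 ≠ 0 → y.val % 3 ≠ 0 →
      lam9 (x.val * y.val) = lam9 x.val + lam9 y.val := by decide
  have h1 := key ⟨a % 9, Nat.mod_lt _ (by norm_num)⟩ ⟨b % 9, Nat.mod_lt _ (by norm_num)⟩
    (by simp only; omega) (by simp only; omega)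
  simp only at h1
  rw [lam9_mod, lam9_mod] at h1
  rw [← h1, ← lam9_mod (a * b), ← lam9_mod (a % 9 * (b % 9)), Nat.mul_mod]

/-- divisibility of integers by the primes of degree one -/
theorem dvd_nat {ρ : Ei} (h : Pq ρ) (hp : (nr ρ).natAbs.Prime) :
    (∀ n : ℤ, ρ ∣ (n : Ei) ↔ ((nr ρ).natAbs : ℤ) ∣ n) ∧ (nr ρ).natAbs % 3 = 1 := by
  obtain ⟨l, hl, -, hn, hz⟩ := below h
  rcases hn with ⟨h1, h2⟩ | ⟨-, h2⟩
  · rw [h2, Int.natAbs_natCast]
    exact ⟨hz, h1⟩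
  · exfalso
    rw [h2, Int.natAbs_pow, Int.natAbs_natCast] at hp
    exact Nat.Prime.not_prime_pow' (by norm_num) hp

variable {n : ℕ}

/-- the exponent of the character -/
noncomputable def ff (ρ : Fin n → Ei) (e : ZMod 3) (a : ℕ) : ZMod 3 :=
  e * lam9 a + ∑ i, cs (ρ i) (a : Ei)

theorem cop {ρ : Fin n → Ei} (hG : Good ρ) {a : ℕ}
    (ha : a.Coprime (9 * ∏ i, (nr (ρ i)).natAbs)) : a % 3 ≠ 0 ∧ ∀ i, ¬ ρ i ∣ ((a : ℕ) : Ei) := by
  rw [Nat.coprime_mul_iff_right, Nat.coprime_prod_right_iff] at ha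
  constructor
  · intro h
    have h1 : 3 ∣ Nat.gcd a 9 := Nat.dvd_gcd (Nat.dvd_of_mod_eq_zero h) (by norm_num)
    rw [ha.1] at h1
    omega
  · intro i h
    rw [nat_int, (dvd_nat (hG.1 i) (hG.2.1 i)).1] at h
    have h1 : (nr (ρ i)).natAbs ∣ a := by exact_mod_cast h
    have h2 := (Nat.dvd_gcd h1 dvd_rfl)
    rw [ha.2 i (Finset.mem_univ i)] at h2
    exact (hG.2.1 i).one_lt.ne' (Nat.dvd_one.1 h2)

theorem ff_mul {ρ : Fin n → Ei} (hG : Good ρ) (e : ZMod 3) {a b : ℕ}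
    (ha : a.Coprime (9 * ∏ i, (nr (ρ i)).natAbs)) (hb : b.Coprime (9 * ∏ i, (nr (ρ i)).natAbs)) :
    ff ρ e (a * b) = ff ρ e a + ff ρ e b := by
  obtain ⟨a1, a2⟩ := cop hG ha
  obtain ⟨b1, b2⟩ := cop hG hb
  unfold ff
  rw [lam9_mul a1 b1]
  have h1 : ∀ i, cs (ρ i) ((a * b : ℕ) : Ei) = cs (ρ i) (a : Ei) + cs (ρ i) (b : Ei) := by
    intro i
    rw [Nat.cast_mul]
    exact cs_mul (hG.1 i).prime (hG.1 i).norm (a2 i) (b2 i)
  rw [Finset.sum_congr rfl fun i _ => h1 i, Finset.sum_add_distrib]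
  ring

theorem cs_per {ρ : Ei} (h : Pq ρ) (hp : (nr ρ).natAbs.Prime) {a b : ℕ}
    (ha : ¬ ρ ∣ ((a : ℕ) : Ei)) (hab : a ≡ b [MOD (nr ρ).natAbs]) :
    cs ρ (a : Ei) = cs ρ (b : Ei) := by
  refine cs_congr h.prime h.norm ha ?_
  have e1 : ((a : ℕ) : Ei) - ((b : ℕ) : Ei) = (((a : ℤ) - b : ℤ) : Ei) := by push_cast; rfl
  rw [e1, (dvd_nat h hp).1]
  exact (Nat.modEq_iff_dvd.1 hab.symm)

theorem lam9_per {a b : ℕ} (h : a ≡ b [MOD 9]) : lam9 a = lam9 b := by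
  rw [← lam9_mod a, ← lam9_mod b, h]

theorem ff_per {ρ : Fin n → Ei} (hG : Good ρ) (e : ZMod 3) {a b : ℕ}
    (ha : a.Coprime (9 * ∏ i, (nr (ρ i)).natAbs))
    (hab : a ≡ b [MOD (9 * ∏ i, (nr (ρ i)).natAbs)]) : ff ρ e a = ff ρ e b := by
  obtain ⟨a1, a2⟩ := cop hG ha
  unfold ff
  rw [lam9_per (hab.of_dvd (dvd_mul_right _ _))]
  congr 1
  refine Finset.sum_congr rfl fun i _ => ?_
  refine cs_per (hG.1 i) (hG.2.1 i) (a2 i) (hab.of_dvd ?_)
  exact (Finset.dvd_prod_of_mem (fun i => (nr (ρ i)).natAbs) (Finset.mem_univ i)).trans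
    (dvd_mul_left _ _)

theorem ff_one {ρ : Fin n → Ei} (hG : Good ρ) (e : ZMod 3) : ff ρ e 1 = 0 := by
  unfold ff
  have h1 : ∀ i, cs (ρ i) ((1 : ℕ) : Ei) = 0 := by
    intro i
    rw [Nat.cast_one]
    exact cs_one (hG.1 i).prime (hG.1 i).norm
  rw [Finset.sum_congr rfl fun i _ => h1 i, Finset.sum_const_zero, add_zero]
  have : lam9 1 = 0 := by decide
  rw [this, mul_zero]

/-- a root of unity -/
noncomputable def ze : ℂ := Complex.exp (2 * Real.pi * Complex.I / (3 : ℕ))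

theorem ze_prim : IsPrimitiveRoot ze 3 := Complex.isPrimitiveRoot_exp 3 (by norm_num)

theorem ze_add (x y : ZMod 3) : ze ^ (x + y).val = ze ^ x.val * ze ^ y.val := by
  rw [ZMod.val_add, ← pow_add, ← pow_eq_pow_mod _ ze_prim.pow_eq_one]

theorem ze_ne {x : ZMod 3} (hx : x ≠ 0) : ze ^ x.val ≠ 1 := by
  intro h
  have h1 := (ze_prim.pow_eq_one_iff_dvd _).1 h
  have h2 := ZMod.val_lt x
  have h3 : x.val = 0 := Nat.eq_zero_of_dvd_of_lt h1 h2
  exact hx ((ZMod.val_eq_zero x).1 h3)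

/-- the homomorphism -/
noncomputable def hm {ρ : Fin n → Ei} (hG : Good ρ) (e : ZMod 3) :
    (ZMod (9 * ∏ i, (nr (ρ i)).natAbs))ˣ →* ℂ where
  toFun u := ze ^ (ff ρ e (u : ZMod (9 * ∏ i, (nr (ρ i)).natAbs)).val).val
  map_one' := by
    have h1 : ff ρ e (((1 : (ZMod (9 * ∏ i, (nr (ρ i)).natAbs))ˣ) :
        ZMod (9 * ∏ i, (nr (ρ i)).natAbs)).val) = ff ρ e 1 := by
      refine ff_per hG e (ZMod.val_coe_unit_coprime _) ?_
      rw [Units.val_one, ZMod.val_one_eq_one_mod]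
      exact Nat.mod_modEq _ _
    rw [h1, ff_one hG, ZMod.val_zero, pow_zero]
  map_mul' u v := by
    have h1 : ff ρ e (((u * v : (ZMod (9 * ∏ i, (nr (ρ i)).natAbs))ˣ) :
        ZMod (9 * ∏ i, (nr (ρ i)).natAbs)).val) =
        ff ρ e ((u : ZMod (9 * ∏ i, (nr (ρ i)).natAbs)).val *
          (v : ZMod (9 * ∏ i, (nr (ρ i)).natAbs)).val) := by
      refine ff_per hG e (ZMod.val_coe_unit_coprime _) ?_
      rw [Units.val_mul, ZMod.val_mul]
      exact Nat.mod_modEq _ _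
    rw [h1, ff_mul hG e (ZMod.val_coe_unit_coprime _) (ZMod.val_coe_unit_coprime _), ze_add]

/-- the character -/
noncomputable def ch {ρ : Fin n → Ei} (hG : Good ρ) (e : ZMod 3) :
    DirichletCharacter ℂ (9 * ∏ i, (nr (ρ i)).natAbs) :=
  MulChar.ofUnitHom (hm hG e).toHomUnits

theorem ch_apply {ρ : Fin n → Ei} (hG : Good ρ) (e : ZMod 3) {a : ℕ}
    (ha : a.Coprime (9 * ∏ i, (nr (ρ i)).natAbs)) : ch hG e a = ze ^ (ff ρ e a).val := by
  have h1 : ((a : ℕ) : ZMod (9 * ∏ i, (nr (ρ i)).natAbs)) = (ZMod.unitOfCoprime a ha : ZMod _) :=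
    (ZMod.coe_unitOfCoprime a ha).symm
  have h2 : ch hG e (ZMod.unitOfCoprime a ha : ZMod (9 * ∏ i, (nr (ρ i)).natAbs)) =
      ze ^ (ff ρ e ((ZMod.unitOfCoprime a ha :
        ZMod (9 * ∏ i, (nr (ρ i)).natAbs)).val)).val := by
    unfold ch
    rw [MulChar.ofUnitHom_coe]
    rfl
  rw [h1, h2]
  congr 2
  refine ff_per hG e (ZMod.val_coe_unit_coprime _) ?_
  rw [ZMod.coe_unitOfCoprime, ZMod.val_natCast]
  exact Nat.mod_modEq _ _

/-- an integer which is not a cube -/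
theorem noncube {ρ : Ei} (h : Pq ρ) (hp : (nr ρ).natAbs.Prime) :
    ∃ a : ℕ, ¬ ρ ∣ ((a : ℕ) : Ei) ∧ cs ρ (a : Ei) ≠ 0 := by
  obtain ⟨hz, h3⟩ := dvd_nat h hp
  have hnn := Pool.Agent.Y715.T.RecC.nr_nn h.prime h.norm
  obtain ⟨q, hq⟩ : ∃ q : ℕ, q = (nr ρ).natAbs := ⟨_, rfl⟩
  rw [← hq] at hz h3 hnn hp
  have : Fact q.Prime := ⟨hp⟩
  obtain ⟨g, hg⟩ := (inferInstance : IsCyclic (ZMod q)ˣ).exists_generator
  have ho : orderOf g = q - 1 := by
    rw [orderOf_eq_card_of_forall_mem_zpowers hg, Nat.card_eq_fintype_card, ZMod.card_units]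
  have hdiv : ∀ m : ℤ, ρ ∣ ((m : ℤ) : Ei) ↔ ((m : ℤ) : ZMod q) = 0 := by
    intro m
    rw [hz, ZMod.intCast_zmod_eq_zero_iff_dvd]
  have hval : (((g : ZMod q).val : ℕ) : ZMod q) = g := ZMod.natCast_zmod_val _
  refine ⟨(g : ZMod q).val, ?_, ?_⟩
  · rw [nat_int, hdiv]
    rw [Int.cast_natCast, hval]
    exact g.ne_zero
  · intro h0
    have hnd : ¬ ρ ∣ (((g : ZMod q).val : ℕ) : Ei) := by
      rw [nat_int, hdiv, Int.cast_natCast, hval]
      exact g.ne_zero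
    have h1 := cs_spec h.prime h.norm hnd
    rw [h0, ZMod.val_zero, pow_zero] at h1
    have e1 : (((g : ZMod q).val : ℕ) : Ei) ^ nn ρ - 1 =
        ((((((g : ZMod q).val : ℕ) : ℤ)) ^ nn ρ - 1 : ℤ) : Ei) := by push_cast; rfl
    rw [e1, hdiv] at h1
    push_cast at h1
    rw [hval] at h1
    have h2 : g ^ nn ρ = 1 := by
      apply Units.ext
      rw [Units.val_pow_eq_pow_val, Units.val_one]
      exact sub_eq_zero.1 h1
    have h4 := orderOf_dvd_of_pow_eq_one h2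
    rw [ho] at h4
    have hn0 : nn ρ ≠ 0 := by
      intro h5
      rw [h5] at hnn
      have := hp.one_lt
      omega
    have h5 := Nat.le_of_dvd (Nat.pos_of_ne_zero hn0) h4
    omega

/-- the exponent is not constant -/
theorem nontriv {ρ : Fin n → Ei} (hG : Good ρ) {e : ZMod 3} (h : e ≠ 0 ∨ n ≠ 0) :
    ∃ a : ℕ, a.Coprime (9 * ∏ i, (nr (ρ i)).natAbs) ∧ ff ρ e a ≠ 0 := by
  classical
  by_cases hn : n = 0
  · subst hn
    have he : e ≠ 0 := by
      rcases h with h | h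
      · exact h
      · exact absurd rfl h
    refine ⟨2, ?_, ?_⟩
    · rw [Finset.univ_eq_empty, Finset.prod_empty]
      norm_num
    · unfold ff
      rw [Finset.univ_eq_empty, Finset.sum_empty, add_zero]
      have h2 : lam9 2 = 2 := by decide
      rw [h2]
      revert he
      revert e
      decide
  · obtain ⟨m, rfl⟩ := Nat.exists_eq_succ_of_ne_zero hn
    obtain ⟨a, ha, hca⟩ := noncube (hG.1 0) (hG.2.1 0)
    have hq3 := (dvd_nat (hG.1 0) (hG.2.1 0)).2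
    have hz := (dvd_nat (hG.1 0) (hG.2.1 0)).1
    obtain ⟨R, hR⟩ : ∃ R : ℕ, R = 9 * ∏ i : Fin m, (nr (ρ i.succ)).natAbs := ⟨_, rfl⟩
    have hcop : Nat.Coprime (nr (ρ 0)).natAbs R := by
      rw [hR, Nat.coprime_mul_iff_right, Nat.coprime_prod_right_iff]
      constructor
      · have h1 : Nat.Coprime (nr (ρ 0)).natAbs 3 := by
          rw [Nat.coprime_primes (hG.2.1 0) Nat.prime_three]
          intro h2
          rw [h2] at hq3
          omega
        have h2 := Nat.Coprime.pow_right 2 h1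
        exact h2
      · intro i _
        rw [Nat.coprime_primes (hG.2.1 0) (hG.2.1 i.succ)]
        intro h2
        apply hG.2.2 0 i.succ (Fin.succ_ne_zero i).symm
        have h3 := nr_nonneg (ρ 0)
        have h4 := nr_nonneg (ρ i.succ)
        omega
    obtain ⟨b, hb1, hb2⟩ := Nat.chineseRemainder hcop a 1
    have hQ : 9 * ∏ i, (nr (ρ i)).natAbs = (nr (ρ 0)).natAbs * R := by
      rw [Fin.prod_univ_succ, hR]
      ring
    have haq : ¬ (nr (ρ 0)).natAbs ∣ a := by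
      intro h1
      apply ha
      rw [nat_int, hz]
      exact_mod_cast h1
    have hbc : b.Coprime (9 * ∏ i, (nr (ρ i)).natAbs) := by
      rw [hQ, Nat.coprime_mul_iff_right]
      constructor
      · have h1 : Nat.Coprime a (nr (ρ 0)).natAbs :=
          ((Nat.Prime.coprime_iff_not_dvd (hG.2.1 0)).2 haq).symm
        have h2 : Nat.gcd b (nr (ρ 0)).natAbs = Nat.gcd a (nr (ρ 0)).natAbs := hb1.gcd_eq
        unfold Nat.Coprime
        rw [h2]
        exact h1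
      · have h2 : Nat.gcd b R = Nat.gcd 1 R := hb2.gcd_eq
        unfold Nat.Coprime
        rw [h2, Nat.gcd_one_left]
    refine ⟨b, hbc, ?_⟩
    obtain ⟨b1, b2⟩ := cop hG hbc
    unfold ff
    have h9 : lam9 b = 0 := by
      have h1 : b ≡ 1 [MOD 9] := hb2.of_dvd (by rw [hR]; exact dvd_mul_right _ _)
      rw [lam9_per h1]
      decide
    rw [h9, mul_zero, zero_add, Fin.sum_univ_succ]
    have h1 : ∀ i : Fin m, cs (ρ i.succ) ((b : ℕ) : Ei) = 0 := by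
      intro i
      have h2 : b ≡ 1 [MOD (nr (ρ i.succ)).natAbs] := hb2.of_dvd (by
        rw [hR]
        exact (Finset.dvd_prod_of_mem (fun i : Fin m => (nr (ρ i.succ)).natAbs)
          (Finset.mem_univ i)).trans (dvd_mul_left _ _))
      rw [cs_per (hG.1 i.succ) (hG.2.1 i.succ) (b2 i.succ) h2, Nat.cast_one]
      exact cs_one (hG.1 i.succ).prime (hG.1 i.succ).norm
    rw [Finset.sum_congr rfl fun i _ => h1 i, Finset.sum_const_zero, add_zero,
      cs_per (hG.1 0) (hG.2.1 0) (b2 0) hb1]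
    exact hca

end CHR

open CHR

/-- **CHR** -/
theorem t_CHR : S_CHR := by
  intro n ρ e hG h
  refine ⟨ch hG e, ?_, ?_⟩
  · intro h1
    obtain ⟨a, ha, hfa⟩ := nontriv hG h
    have h2 := ch_apply hG e ha
    rw [h1] at h2
    have h3 : (1 : DirichletCharacter ℂ (9 * ∏ i, (nr (ρ i)).natAbs)) (a : ZMod _) = 1 := by
      rw [← ZMod.coe_unitOfCoprime a ha]
      exact MulChar.one_apply_coe _
    rw [h3] at h2
    exact ze_ne hfa h2.symm
  · intro p hp hf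
    rw [ch_apply hG e hp]
    have h2 : ff ρ e p = 0 := hf
    rw [h2, ZMod.val_zero, pow_zero]

end Pool.Agent.N17.HC
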