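import Pool.Agent.N17.HC.StmB

/-!
# Project HC: cubic polynomials which split modulo almost all small primes split
-/

set_option autoImplicit false

open Polynomial Filter

namespace Pool.Agent.N17.HC

open Pool.Agent.Y692.QS
open Pool.Agent.Y715.T.Rec (cs)

namespace CUB

theorem par (a b c s : ℤ) (h : disc3 a b c = s ^ 2) :
    ∃ α : Ei, 2 * α = ⟨2 * a ^ 3 - 9 * a * b + 27 * c + 3 * s, 6 * s⟩ := by
  have h2 : (2 : ℤ) ∣ 2 * a ^ 3 - 9 * a * b + 27 * c + 3 * s := by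
    have key : ∀ a b c s : ZMod 2,
        a ^ 2 * b ^ 2 - 4 * b ^ 3 - 4 * a ^ 3 * c + 18 * a * b * c - 27 * c ^ 2 = s ^ 2 →
        2 * a ^ 3 - 9 * a * b + 27 * c + 3 * s = 0 := by decide
    have h3 := congrArg (Int.cast : ℤ → ZMod 2) h
    unfold disc3 at h3
    push_cast at h3
    have h4 := key _ _ _ _ h3
    have h5 := (ZMod.intCast_zmod_eq_zero_iff_dvd (2 * a ^ 3 - 9 * a * b + 27 * c + 3 * s) 2).1
      (by push_cast; exact h4)
    exact_mod_cast h5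
  obtain ⟨u, hu⟩ := h2
  refine ⟨⟨u, 3 * s⟩, ?_⟩
  have e2 : (2 : Ei) = ⟨2, 0⟩ := by decide
  rw [e2]
  ext
  · rw [mul_re]
    simp [hu]
  · rw [mul_im]
    simp
    ring

theorem exp_lt : 2 * Real.exp (1 / 2) < 4 := by
  have h1 : Real.exp (1 / 2) ^ 2 = Real.exp 1 := by
    rw [← Real.exp_nat_mul]
    norm_num
  have h2 := Real.exp_one_lt_d9
  have h3 := Real.exp_pos (1 / 2)
  nlinarith

theorem ev_pow (c ε : ℝ) (hε : 0 < ε) : ∀ᶠ y : ℕ in atTop, c ≤ (y : ℝ) ^ ε := by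
  have h1 : Tendsto (fun y : ℕ => (y : ℝ) ^ ε) atTop atTop :=
    (tendsto_rpow_atTop hε).comp tendsto_natCast_atTop_atTop
  exact h1.eventually_ge_atTop c

/-- the size of the exceptional number -/
theorem size (y A1 : ℝ) (hy : 200 ≤ y) (hA : 1 ≤ A1) (B a b N q s : ℝ)
    (hB : |B| ≤ y ^ A1) (ha : |a| ≤ y ^ A1) (hb : |b| ≤ y ^ A1) (hN : N = (a ^ 2 - 3 * b) ^ 3)
    (hq0 : 0 ≤ q) (hq : q ≤ |s|) (hs : |s| ≤ y ^ (4 : ℝ)) :
    |B * (3 * N * q)| ≤ y ^ (7 * A1 + 6) := by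
  have hy0 : (0 : ℝ) < y := by linarith
  set Y := y ^ A1 with hY
  have hY1 : 1 ≤ Y := Real.one_le_rpow (by linarith) (by linarith)
  have h1 : |a ^ 2 - 3 * b| ≤ 4 * Y ^ 2 := by
    have h2 : |a ^ 2| ≤ Y ^ 2 := by
      rw [abs_pow]
      exact pow_le_pow_left₀ (abs_nonneg _) ha 2
    have h3 : |3 * b| ≤ 3 * Y := by
      rw [abs_mul]
      norm_num
      linarith
    have h4 := abs_sub (a ^ 2) (3 * b)
    nlinarith
  have h5 : |N| ≤ (4 * Y ^ 2) ^ 3 := by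
    rw [hN, abs_pow]
    exact pow_le_pow_left₀ (abs_nonneg _) h1 3
  have h6 : |B * (3 * N * q)| = |B| * (3 * |N| * q) := by
    rw [abs_mul, abs_mul, abs_mul, abs_of_nonneg hq0]
    norm_num
  rw [h6]
  have h7 : |B| * (3 * |N| * q) ≤ Y * (3 * (4 * Y ^ 2) ^ 3 * y ^ (4 : ℝ)) := by
    apply mul_le_mul hB _ (by positivity) (by positivity)
    apply mul_le_mul _ (hq.trans hs) hq0 (by positivity)
    linarith
  refine h7.trans ?_
  have h8 : y ^ (7 * A1 + 6) = Y ^ 7 * y ^ (4 : ℝ) * y ^ (2 : ℝ) := by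
    rw [hY, ← Real.rpow_natCast, ← Real.rpow_mul hy0.le, ← Real.rpow_add hy0, ← Real.rpow_add hy0]
    congr 1
    push_cast
    ring
  rw [h8]
  have h9 : (192 : ℝ) ≤ y ^ (2 : ℝ) := by
    rw [Real.rpow_two]
    nlinarith
  have h10 : 0 ≤ Y ^ 7 * y ^ (4 : ℝ) := by positivity
  calc Y * (3 * (4 * Y ^ 2) ^ 3 * y ^ (4 : ℝ)) = Y ^ 7 * y ^ (4 : ℝ) * 192 := by ring
    _ ≤ _ := by gcongr

end CUB

open CUB in
theorem t_CUB (hA : S_ALG) (h2 : S_M2) (hF : S_FAC) (hC : S_CUBE) (hR : S_REC) (hχ : S_CHR)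
    (hD : S_DIV) (hN : S_ANA) : S_CUB := by
  intro k A ε hε
  set A1 := max A 1 with hA1
  have hA1' : 1 ≤ A1 := le_max_right _ _
  have hAA : A ≤ A1 := le_max_left _ _
  filter_upwards [h2 k A ε hε, hN (max k 3) (7 * A1 + 6) (ε / 4) (by positivity),
    eventually_ge_atTop 200, ev_pow 9 (ε / 4) (by positivity)] with y hy1 hy2 hy3 hy4
  intro a b c B hB hBA ha hb hc hd hs
  have hyR : (200 : ℝ) ≤ y := by exact_mod_cast hy3
  have hy0 : (0 : ℝ) < y := by linarith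
  have hyA : (y : ℝ) ^ A ≤ (y : ℝ) ^ A1 := Real.rpow_le_rpow_of_exponent_le (by linarith) hAA
  have hsq : IsSquare (disc3 a b c) :=
    hy1 _ B hB hBA hd (fun p hp hkp hpy hpB => hA.1 p a b c (hs p hp hkp hpy hpB))
  obtain ⟨s, hs2⟩ := hsq
  have hs3 : disc3 a b c = s ^ 2 := by rw [hs2]; ring
  suffices hm : ∃ m : ℤ, m ^ 3 - a * m ^ 2 + b * m - c = 0 by
    obtain ⟨m, hm⟩ := hm
    exact hA.2.2 a b c m s hm hs3
  by_cases h0 : s = 0
  · exact hA.2.1 a b c (by rw [hs3, h0]; rfl)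
  obtain ⟨α, hα⟩ := par a b c s hs3
  obtain ⟨c1, c2, c3, c4⟩ := hC a b c s α hs3 hα
  have hα0 : α ≠ 0 := by
    rintro rfl
    have h5 := congrArg QuadraticAlgebra.im hα
    simp at h5
    exact h0 h5
  have hnr0 : nr α ≠ 0 := fun h => hα0 (nr_zero_iff.1 h)
  obtain ⟨n, ρ, e, g, hg, hg0, hdv, hid⟩ := hF α _ hα0 c2
  by_cases hne : e = 0 ∧ n = 0
  · obtain ⟨he, hn⟩ := hne
    subst hn
    subst he
    refine c4 g ?_
    simpa using hid
  · exfalso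
    have hne' : e ≠ 0 ∨ n ≠ 0 := by tauto
    obtain ⟨q, hq⟩ : ∃ q, q = ∏ i, (nr (ρ i)).natAbs := ⟨_, rfl⟩
    have hx := hχ n ρ e hg hne'
    rw [← hq] at hx
    obtain ⟨χ, hχ1, hχ2⟩ := hx
    have hqd : q ∣ s.natAbs := hq ▸ hD n ρ s α hg hdv c3
    have hq0 : q ≠ 0 := hq ▸ Finset.prod_ne_zero_iff.2 (fun i _ => (hg.2.1 i).ne_zero)
    have hqs : (q : ℝ) ≤ |(s : ℝ)| := by
      have h6 := Nat.le_of_dvd (Int.natAbs_pos.2 h0) hqd
      have h7 : ((s.natAbs : ℤ) : ℝ) = |(s : ℝ)| := by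
        rw [Int.natCast_natAbs, Int.cast_abs]
      rw [← h7]
      exact_mod_cast h6
    have hsR : |(s : ℝ)| ≤ (y : ℝ) ^ (2 * Real.exp (1 / 2) - ε / 2) := by
      have h8 : |(s : ℝ)| ^ 2 ≤ ((y : ℝ) ^ (2 * Real.exp (1 / 2) - ε / 2)) ^ 2 := by
        rw [← Real.rpow_natCast, ← Real.rpow_natCast, ← Real.rpow_mul hy0.le]
        have h9 : (2 * Real.exp (1 / 2) - ε / 2) * ((2 : ℕ) : ℝ) = 4 * Real.exp (1 / 2) - ε := by
          push_cast
          ring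
        rw [h9, Real.rpow_natCast, sq_abs]
        refine le_trans (le_of_eq ?_) hd
        rw [hs3]
        push_cast
        rw [abs_of_nonneg (sq_nonneg _)]
      exact (pow_le_pow_iff_left₀ (abs_nonneg _) (by positivity) two_ne_zero).1 h8
    have hs4 : |(s : ℝ)| ≤ (y : ℝ) ^ (4 : ℝ) :=
      hsR.trans (Real.rpow_le_rpow_of_exponent_le (by linarith) (by linarith [exp_lt]))
    have hQ : ((9 * q : ℕ) : ℝ) ≤ (y : ℝ) ^ (2 * Real.exp (1 / 2) - ε / 4) := by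
      push_cast
      calc (9 : ℝ) * q ≤ (y : ℝ) ^ (ε / 4) * (y : ℝ) ^ (2 * Real.exp (1 / 2) - ε / 2) := by
            apply mul_le_mul hy4 (hqs.trans hsR) (by positivity) (by positivity)
        _ = _ := by
            rw [← Real.rpow_add hy0]
            congr 1
            ring
    have hB0 : B * (3 * nr α * q) ≠ 0 := by
      have : (q : ℤ) ≠ 0 := by exact_mod_cast hq0
      positivity
    have hBb : |((B * (3 * nr α * q) : ℤ) : ℝ)| ≤ (y : ℝ) ^ (7 * A1 + 6) := by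
      have h10 := size y A1 hyR hA1' B a b (nr α : ℤ) q s (hBA.trans hyA) (ha.trans hyA)
        (hb.trans hyA) (by rw [c2]; push_cast; ring) (by positivity) hqs hs4
      push_cast
      exact h10
    obtain ⟨p, hp, hkp, hpy, hpB, hpχ⟩ :=
      hy2 (9 * q) χ (B * (3 * nr α * q)) (by positivity) hχ1 hQ hB0 hBb
    have hk1 : k < p := lt_of_le_of_lt (le_max_left _ _) hkp
    have hk3 : 3 < p := lt_of_le_of_lt (le_max_right _ _) hkp
    have d1 : ¬ (p : ℤ) ∣ B := fun h => hpB (h.mul_right _)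
    have d2 : ¬ (p : ℤ) ∣ nr α := fun h => hpB ((h.mul_left 3).mul_right _ |>.mul_left _)
    have d3 : ¬ (p : ℤ) ∣ (q : ℤ) := fun h => hpB ((h.mul_left _).mul_left _)
    have d4 : ∀ i, ¬ (p : ℤ) ∣ nr (ρ i) := by
      intro i h
      apply d3
      refine h.trans ?_
      rw [← Int.natAbs_dvd, hq]
      exact_mod_cast Finset.dvd_prod_of_mem (fun i => (nr (ρ i)).natAbs) (Finset.mem_univ i)
    have hcop : p.Coprime (9 * q) := by
      rw [Nat.Prime.coprime_iff_not_dvd hp, hp.dvd_mul]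
      rintro (h | h)
      · have : p ∣ 3 := hp.dvd_of_dvd_pow (show p ∣ 3 ^ 2 by simpa using h)
        have := Nat.le_of_dvd (by norm_num) this
        omega
      · exact d3 (by exact_mod_cast h)
    exact hpχ (hχ2 p hcop (hR α n ρ e g hg hid p hp hk3 d2 d4
      (c1 p hp hk3 (hs p hp hk1 hpy d1))))

end Pool.Agent.N17.HC
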