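import Pool.Agent.N17.HC.StmB

/-!
# Project HC, leaf CUBE: the Lagrange resolvent of a cubic polynomial
-/

set_option autoImplicit false

open Polynomial

namespace Pool.Agent.N17.HC

open Pool.Agent.Y692.QS

namespace CUBE

theorem pow3_re (g : Ei) : (g ^ 3).re = g.re ^ 3 - 3 * g.re * g.im ^ 2 + g.im ^ 3 := by
  rw [pow_succ, pow_two, mul_re, mul_re, mul_im]; ring

theorem pow3_im (g : Ei) : (g ^ 3).im = 3 * g.re * g.im * (g.re - g.im) := by
  rw [pow_succ, pow_two, mul_im, mul_re, mul_im]; ring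

theorem sub_re (α β : Ei) : (α - β).re = α.re - β.re := QuadraticAlgebra.re_sub α β

theorem sub_im (α β : Ei) : (α - β).im = α.im - β.im := QuadraticAlgebra.im_sub α β

theorem dvd_of {p : ℕ} (hp : p.Prime) (h3 : 3 < p) (β : Ei)
    (hr : 2 * ((β.re : ℤ) : ZMod p) = 0) (hi : ((β.im : ℤ) : ZMod p) = 0) : (p : Ei) ∣ β := by
  have : Fact p.Prime := ⟨hp⟩
  have h2 : (2 : ZMod p) ≠ 0 := by
    intro h
    have : ((2 : ℕ) : ZMod p) = 0 := by exact_mod_cast h
    rw [ZMod.natCast_eq_zero_iff] at this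
    have := Nat.le_of_dvd (by norm_num) this
    omega
  have h : (((p : ℤ) : ℤ) : Ei) ∣ β := by
    rw [int_dvd]
    constructor
    · rw [← ZMod.intCast_zmod_eq_zero_iff_dvd]
      exact (mul_eq_zero.1 hr).resolve_left h2
    · rw [← ZMod.intCast_zmod_eq_zero_iff_dvd]
      exact hi
  simpa using h

end CUBE

open CUBE in
theorem t_CUBE : S_CUBE := by
  intro a b c s α hD hα
  have e1 := congrArg QuadraticAlgebra.re hα
  have e2 := congrArg QuadraticAlgebra.im hα
  rw [two_mul, QuadraticAlgebra.re_add] at e1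
  rw [two_mul, QuadraticAlgebra.im_add] at e2
  simp only at e1 e2
  have him : α.im = 3 * s := by linarith
  have hre : 2 * α.re = 2 * a ^ 3 - 9 * a * b + 27 * c + 3 * s := by linarith
  have hnr : nr α = (a ^ 2 - 3 * b) ^ 3 := by
    have : 4 * nr α = 4 * (a ^ 2 - 3 * b) ^ 3 := by
      unfold nr
      rw [him]
      unfold disc3 at hD
      linear_combination (2 * α.re + (2 * a ^ 3 - 9 * a * b + 27 * c + 3 * s) - 6 * s) * hre
        - 27 * hD
    linarith
  refine ⟨?_, hnr, ?_, ?_⟩
  · intro p hp h3 ⟨x, y, z, h1, h2, h3'⟩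
    have : Fact p.Prime := ⟨hp⟩
    rw [← ZMod.intCast_zmod_eq_zero_iff_dvd] at h1 h2 h3'
    push_cast at h1 h2 h3'
    have ha := sub_eq_zero.1 h1
    have hb := sub_eq_zero.1 h2
    have hc := sub_eq_zero.1 h3'
    have hs := congrArg (Int.cast : ℤ → ZMod p) hD
    unfold disc3 at hs
    push_cast at hs
    have hre' := congrArg (Int.cast : ℤ → ZMod p) hre
    have him' := congrArg (Int.cast : ℤ → ZMod p) him
    push_cast at hre' him'
    rw [ha, hb, hc] at hs hre'
    have hprod : (((x : ZMod p) - z) * (y - z) * (x - y) - s) *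
        (((x : ZMod p) - z) * (y - z) * (x - y) + s) = 0 := by
      linear_combination hs
    rcases mul_eq_zero.1 hprod with h | h
    · refine ⟨⟨x - z, y - z⟩, dvd_of hp h3 _ ?_ ?_⟩
      · rw [sub_re, pow3_re]
        push_cast
        linear_combination hre' - 3 * h
      · rw [sub_im, pow3_im]
        push_cast
        linear_combination him' - 3 * h
    · refine ⟨star ⟨x - z, y - z⟩, dvd_of hp h3 _ ?_ ?_⟩
      · rw [sub_re, pow3_re, star_re, star_im]
        push_cast
        linear_combination hre' + 3 * h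
      · rw [sub_im, pow3_im, star_re, star_im]
        push_cast
        linear_combination him' + 3 * h
  · have r3 : (3 : Ei).re = 3 := rfl
    have i3 : (3 : Ei).im = 0 := rfl
    ext
    · rw [sub_re, star_re, mul_re, him]
      simp [r3, i3]
    · rw [sub_im, star_im, mul_im, him]
      simp [r3, i3]
      ring
  · intro g hg
    have hn : nr g = a ^ 2 - 3 * b := by
      have h : (nr g) ^ 3 = (a ^ 2 - 3 * b) ^ 3 := by
        rw [← hnr, hg, pow_succ g, pow_two g, nr_mul, nr_mul]; ring
      exact (Odd.strictMono_pow (by decide : Odd 3)).injective h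
    have k1 : α.re = g.re ^ 3 - 3 * g.re * g.im ^ 2 + g.im ^ 3 := by rw [hg, pow3_re]
    have k2 : α.im = 3 * g.re * g.im * (g.re - g.im) := by rw [hg, pow3_im]
    unfold nr at hn
    set t : ℤ := a + (2 * g.re - g.im) with ht
    have hz : t ^ 3 - 3 * a * t ^ 2 + 9 * b * t - 27 * c = 0 := by
      rw [ht]
      rw [k1] at hre
      rw [k2] at him
      linear_combination 3 * (2 * g.re - g.im) * hn + hre - him
    have h3 : (3 : ℤ) ∣ t ^ 3 := ⟨a * t ^ 2 - 3 * b * t + 9 * c, by linarith⟩
    obtain ⟨m, hm⟩ := Int.prime_three.dvd_of_dvd_pow h3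
    refine ⟨m, ?_⟩
    rw [hm] at hz
    linarith

end Pool.Agent.N17.HC
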