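import Pool.Agent.N17.HC.StmB

set_option autoImplicit false

namespace Pool.Agent.N17.HC

open Pool.Agent.Y692.QS
open Pool.Agent.Y715.T.RecG (Pq)

namespace DIV

lemma th : (⟨1, 2⟩ : Ei) * ⟨1, 2⟩ = -3 := by
  decide

end DIV

theorem t_DIV : S_DIV := by
  intro n ρ s α hG hd hα
  obtain ⟨hP, hpr, hne⟩ := hG
  have key : ∀ i, (nr (ρ i)).natAbs ∣ s.natAbs := by
    intro i
    have hp := (hP i).prime
    have h3 : ¬ ρ i ∣ 3 := (hP i).norm
    have h12 : ¬ ρ i ∣ (⟨1, 2⟩ : Ei) := by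
      intro h
      apply h3
      have h0 : ρ i ∣ (⟨1, 2⟩ : Ei) * ⟨1, 2⟩ := Dvd.dvd.mul_right h _
      rw [DIV.th] at h0
      exact (dvd_neg).1 h0
    have h1 : ρ i ∣ 3 * (s : Ei) * ⟨1, 2⟩ := by
      rw [← hα]
      exact dvd_sub (hd i).1 (hd i).2
    have h2 : ρ i ∣ (s : Ei) := by
      rcases hp.dvd_or_dvd h1 with h | h
      · rcases hp.dvd_or_dvd h with h | h
        · exact absurd h h3
        · exact h
      · exact absurd h h12
    obtain ⟨t, ht⟩ := h2
    have h4 : nr (ρ i) ∣ s ^ 2 := by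
      rw [← nr_int, ht, nr_mul]
      exact dvd_mul_right _ _
    have h5 : (nr (ρ i)).natAbs ∣ s.natAbs ^ 2 := by
      rw [← Int.natAbs_pow]
      exact Int.natAbs_dvd_natAbs.2 h4
    exact (hpr i).dvd_of_dvd_pow h5
  apply Finset.prod_dvd_of_isRelPrime
  · intro i _ j _ hij
    show IsRelPrime _ _
    rw [← Nat.coprime_iff_isRelPrime, Nat.coprime_primes (hpr i) (hpr j)]
    intro h
    apply hne i j hij
    have h1 := nr_nonneg (ρ i)
    have h2 := nr_nonneg (ρ j)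
    omega
  · intro i _
    exact key i

end Pool.Agent.N17.HC
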