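import Pool.Agent.N17.HC.StmB
import Pool.Agent.N758.HCB.Bas

/-!
# Project HC, part FAC (helper758): Eisenstein integers whose norm is a cube
-/

set_option autoImplicit false

namespace Pool.Agent.N17.HC

open Pool.Agent.Y692.QS
open Pool.Agent.Y715.T.Rec (cs nn not_unit)
open Pool.Agent.Y715.T.RecG (Pq)
open Pool.Agent.Y405.CT (below nat_int pq_star eq_of_dvdG)
open Pool.Agent.Y715.T.RecC (star_dvd)
open Pool.Agent.N758.HCB

namespace FAC

theorem lam_dvd {β : Ei} (h : (3 : ℤ) ∣ nr β) : (1 - w) ∣ β := by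
  have h1 : (3 : ℤ) ∣ β.re + β.im := by
    have h2 : (3 : ℤ) ∣ (β.re + β.im) ^ 2 := by
      obtain ⟨c, hc⟩ := h
      unfold nr at hc
      exact ⟨c + β.re * β.im, by linear_combination hc⟩
    exact Int.prime_three.dvd_of_dvd_pow h2
  obtain ⟨c, hc⟩ := h1
  have h3 : (1 - w) * (2 + w) = (3 : Ei) := by decide
  refine ⟨(2 + w) * (c : Ei) - (β.im : Ei), ?_⟩
  have h4 : (β.re : Ei) + (β.im : Ei) = 3 * (c : Ei) := by
    have := congrArg (fun z : ℤ => (z : Ei)) hc
    push_cast at this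
    exact this
  conv_lhs => rw [eta β]
  linear_combination h4 - (c : Ei) * h3

theorem inert_dvd {q : ℕ} (hq : q.Prime) (h3 : q % 3 = 2) {β : Ei} (h : (q : ℤ) ∣ nr β) :
    ((q : ℕ) : Ei) ∣ β := by
  obtain ⟨π, hπ, hd, hc⟩ := above hq (by rintro rfl; omega)
  have hn : nr π = (q : ℤ) ^ 2 := by
    rcases hc with ⟨h1, -⟩ | ⟨-, h1⟩
    · omega
    · exact h1
  obtain ⟨u, hu⟩ := hd
  have hu1 : nr u = 1 := by
    have h3 := congrArg nr hu
    rw [nr_nat, nr_mul, hn] at h3
    have h4 : ((q : ℤ) ^ 2) ≠ 0 := pow_ne_zero _ (by exact_mod_cast hq.ne_zero)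
    exact (mul_left_cancel₀ h4 (by rw [mul_one]; exact h3)).symm
  have hP : Prime ((q : ℕ) : Ei) := by
    obtain ⟨v, hv⟩ := isUnit_iff.2 hu1
    rw [hu, ← hv]
    exact (Associated.prime_iff ⟨v, rfl⟩).1 hπ.prime
  have h1 : ((q : ℕ) : Ei) ∣ β * star β := by
    rw [mul_star, nat_int]
    exact int_dvd_int.2 h
  rcases hP.dvd_or_dvd h1 with h2 | h2
  · exact h2
  · have h4 := star_dvd h2
    rw [star_star] at h4
    have h5 : star ((q : ℕ) : Ei) = ((q : ℕ) : Ei) := by
      rw [nat_int]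
      ext
      · rw [star_re]
        simp
      · rw [star_im]
        simp
    rwa [h5] at h4

theorem split_dvd {q : ℕ} {π β : Ei} (hπ : Prime π) (hn : nr π = q) (h : (q : ℤ) ∣ nr β) :
    π ∣ β ∨ star π ∣ β := by
  have h1 : π ∣ β * star β := by
    rw [mul_star]
    have h2 : ((q : ℤ) : Ei) ∣ ((nr β : ℤ) : Ei) := int_dvd_int.2 h
    refine dvd_trans ⟨star π, ?_⟩ h2
    rw [mul_star, hn]
  rcases hπ.dvd_or_dvd h1 with h2 | h2
  · exact Or.inl h2
  · right
    have h4 := star_dvd h2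
    rwa [star_star] at h4

theorem nr_pow (β : Ei) (k : ℕ) : nr (β ^ k) = nr β ^ k := by
  induction k with
  | zero => rw [pow_zero, pow_zero, nr_one]
  | succ k ih => rw [pow_succ, nr_mul, ih, pow_succ]

theorem two_le {β : Ei} (h0 : β ≠ 0) (h : ¬ IsUnit β) : 2 ≤ nr β := by
  have h1 := nr_nonneg β
  have h2 : nr β ≠ 0 := fun h3 => h0 (nr_zero_iff.1 h3)
  have h3 : nr β ≠ 1 := fun h3 => h (isUnit_iff.2 h3)
  omega

theorem one_le {β : Ei} (h0 : β ≠ 0) : 1 ≤ nr β := by
  have h1 := nr_nonneg β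
  have h2 : nr β ≠ 0 := fun h3 => h0 (nr_zero_iff.1 h3)
  omega

/-- a divisor of norm a prime `1` modulo `3` -/
theorem split_case {α π : Ei} {A : ℤ} {l : ℕ} (hl : l.Prime) (hα : nr α = A ^ 3)
    (hNC : ∀ β : Ei, ¬ IsUnit β → ¬ β ^ 3 ∣ α) (hπ : Pq π) (hn : nr π = l) (hd : π ∣ α) :
    ∃ (ρ α₃ : Ei) (B : ℤ), Pq ρ ∧ nr ρ = l ∧ α = ρ * star ρ ^ 2 * α₃ ∧ nr α₃ = B ^ 3 := by
  have hlp : Prime (l : ℤ) := Nat.prime_iff_prime_int.1 hl
  have hl0 : (l : ℤ) ≠ 0 := hlp.ne_zero
  obtain ⟨α₁, h1⟩ := hd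
  have e1 : (l : ℤ) * nr α₁ = A ^ 3 := by rw [← hα, h1, nr_mul, hn]
  obtain ⟨B, hB⟩ := hlp.dvd_of_dvd_pow (Dvd.intro _ e1 : (l : ℤ) ∣ A ^ 3)
  have e2 : nr α₁ = l ^ 2 * B ^ 3 := by
    apply mul_left_cancel₀ hl0
    rw [e1, hB]
    ring
  have step : ∀ {β : Ei} {C : ℤ}, nr β = l * C → ∃ (σ β' : Ei), (σ = π ∨ σ = star π) ∧
      β = σ * β' ∧ nr β' = C := by
    intro β C hβ
    rcases split_dvd hπ.prime hn (Dvd.intro _ hβ.symm) with ⟨β', h2⟩ | ⟨β', h2⟩
    · refine ⟨π, β', Or.inl rfl, h2, ?_⟩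
      apply mul_left_cancel₀ hl0
      rw [← hβ, h2, nr_mul, hn]
    · refine ⟨star π, β', Or.inr rfl, h2, ?_⟩
      apply mul_left_cancel₀ hl0
      rw [← hβ, h2, nr_mul, nr_star, hn]
  obtain ⟨σ, α₂, hσ, h2, e3⟩ := step (C := l * B ^ 3) (by rw [e2]; ring)
  obtain ⟨τ, α₃, hτ, h3, e4⟩ := step (C := B ^ 3) e3
  have hs := pq_star hπ
  have hns : nr (star π) = l := by rw [nr_star, hn]
  rcases hσ with hσ | hσ <;> rcases hτ with hτ | hτ <;> rw [hσ] at h2 <;> rw [hτ] at h3
  · exfalso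
    refine hNC π hπ.prime.not_isUnit ⟨α₃, ?_⟩
    rw [h1, h2, h3]
    ring
  · refine ⟨star π, α₃, B, hs, hns, ?_, e4⟩
    rw [star_star, h1, h2, h3]
    ring
  · refine ⟨star π, α₃, B, hs, hns, ?_, e4⟩
    rw [star_star, h1, h2, h3]
    ring
  · refine ⟨π, α₃, B, hπ, hn, ?_, e4⟩
    rw [h1, h2, h3]
    ring

theorem main : ∀ (N : ℕ) (α : Ei) (A : ℤ), (nr α).natAbs = N → α ≠ 0 → nr α = A ^ 3 →
    ∃ (n : ℕ) (ρ : Fin n → Ei) (e : ZMod 3) (g : Ei), Good ρ ∧ g ≠ 0 ∧
      (∀ i, ρ i ∣ α ∧ ρ i ∣ star α) ∧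
      α * ∏ i, star (ρ i) = w ^ e.val * (∏ i, ρ i) * g ^ 3 := by
  classical
  intro N
  induction N using Nat.strong_induction_on with
  | _ N ih =>
    intro α A hN h0 hA
    by_cases hu : IsUnit α
    · -- units
      obtain ⟨c, hc⟩ := Pool.Agent.Y715.T.RecC.unit_form hu
      have hG : Good (fun i : Fin 0 => i.elim0 : Fin 0 → Ei) :=
        ⟨fun i => i.elim0, fun i => i.elim0, fun i => i.elim0⟩
      rcases hc with hc | hc
      · refine ⟨0, _, c, 1, hG, one_ne_zero, fun i => i.elim0, ?_⟩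
        simp [hc]
      · refine ⟨0, _, c, -1, hG, neg_ne_zero.2 one_ne_zero, fun i => i.elim0, ?_⟩
        rw [Finset.univ_eq_empty, Finset.prod_empty, Finset.prod_empty, hc]
        ring
    by_cases hcube : ∃ β : Ei, ¬ IsUnit β ∧ β ^ 3 ∣ α
    · -- a cube divides
      obtain ⟨β, hβ, α', hα'⟩ := hcube
      have hβ0 : β ≠ 0 := by
        rintro rfl
        apply h0
        rw [hα']
        simp
      have hα0 : α' ≠ 0 := by
        rintro rfl
        apply h0
        rw [hα', mul_zero]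
      have e1 : nr α = nr β ^ 3 * nr α' := by rw [hα', nr_mul, nr_pow]
      have h2 := two_le hβ0 hβ
      have h1 := one_le hα0
      have h3 : nr β ∣ A := by
        rw [← Int.pow_dvd_pow_iff (by norm_num : 3 ≠ 0), ← hA, e1]
        exact dvd_mul_right _ _
      obtain ⟨A', hA'⟩ := h3
      have e2 : nr α' = A' ^ 3 := by
        have h4 : nr β ^ 3 ≠ 0 := pow_ne_zero _ (by omega)
        apply mul_left_cancel₀ h4
        rw [← e1, hA, hA']
        ring
      have hlt : (nr α').natAbs < N := by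
        have h5 : nr α' < nr α := by
          rw [e1]
          have h6 : 8 ≤ nr β ^ 3 := by
            have := pow_le_pow_left₀ (by norm_num : (0 : ℤ) ≤ 2) h2 3
            linarith
          nlinarith
        omega
      obtain ⟨n, ρ, e, g, hG, hg, hd, hid⟩ := ih _ hlt α' A' rfl hα0 e2
      refine ⟨n, ρ, e, β * g, hG, mul_ne_zero hβ0 hg, fun i => ⟨?_, ?_⟩, ?_⟩
      · rw [hα']
        exact Dvd.dvd.mul_left (hd i).1 _
      · rw [hα', star_mul']
        exact Dvd.dvd.mul_left (hd i).2 _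
      · rw [hα']
        linear_combination β ^ 3 * hid
    push Not at hcube
    obtain ⟨π₀, hirr, hd0⟩ := WfDvdMonoid.exists_irreducible_factor hu h0
    have hπ₀ := hirr.prime
    by_cases h3 : π₀ ∣ 3
    · -- above `3`
      exfalso
      have h4 : (3 : ℤ) ∣ nr π₀ := by
        have h5 : nr π₀ ∣ 9 := by
          have := nr_dvd h3
          have e : nr (3 : Ei) = 9 := by decide
          rwa [e] at this
        have h6 := two_le hπ₀.ne_zero hπ₀.not_isUnit
        have h7 : nr π₀ ≤ 9 := Int.le_of_dvd (by norm_num) h5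
        interval_cases h : nr π₀ <;> omega
      have h5 : (3 : ℤ) ∣ A := by
        apply Int.prime_three.dvd_of_dvd_pow (n := 3)
        rw [← hA]
        exact h4.trans (nr_dvd hd0)
      obtain ⟨B, hB⟩ := h5
      have hl : nr (1 - w) = 3 := by decide
      have step : ∀ {β : Ei} {C : ℤ}, nr β = 3 * C → ∃ β' : Ei, β = (1 - w) * β' ∧ nr β' = C := by
        intro β C hβ
        obtain ⟨β', h6⟩ := lam_dvd (Dvd.intro _ hβ.symm)
        refine ⟨β', h6, ?_⟩
        rw [h6, nr_mul, hl] at hβ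
        omega
      obtain ⟨α₁, k1, k2⟩ := step (β := α) (C := 9 * B ^ 3) (by rw [hA, hB]; ring)
      obtain ⟨α₂, k3, k4⟩ := step (C := 3 * B ^ 3) (by rw [k2]; ring)
      obtain ⟨α₃, k5, k6⟩ := step k4
      refine hcube (1 - w) ?_ ⟨α₃, ?_⟩
      · rw [isUnit_iff, hl]
        norm_num
      · rw [k1, k3, k5]
        ring
    obtain ⟨u, hu', hq⟩ := prim hπ₀ h3
    obtain ⟨π, hπ⟩ : ∃ π : Ei, π = u * π₀ := ⟨_, rfl⟩
    rw [← hπ] at hq
    have hd : π ∣ α := by
      obtain ⟨v, rfl⟩ := hu'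
      rw [hπ, mul_comm]
      exact (Units.mul_right_dvd).2 hd0
    obtain ⟨l, hl, hld, hln, hz⟩ := below hq
    have hlp : Prime (l : ℤ) := Nat.prime_iff_prime_int.1 hl
    have hl0 : (l : ℤ) ≠ 0 := hlp.ne_zero
    rcases hln with ⟨hl3, hn⟩ | ⟨hl3, hn⟩
    · -- split
      obtain ⟨ρ, α₃, B, hρ, hnρ, hα, hB⟩ := split_case hl hA hcube hq hn hd
      have hα₃ : α₃ ≠ 0 := by
        rintro rfl
        apply h0
        rw [hα, mul_zero]
      have hlt : (nr α₃).natAbs < N := by
        have e1 : nr α = l ^ 3 * nr α₃ := by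
          rw [hα, nr_mul, nr_mul, nr_pow, nr_star, hnρ]
          ring
        have h1 := one_le hα₃
        have h2 : (2 : ℤ) ≤ l := by exact_mod_cast hl.two_le
        have h5 : nr α₃ < nr α := by
          rw [e1]
          have h6 : (8 : ℤ) ≤ (l : ℤ) ^ 3 := by
            have := pow_le_pow_left₀ (by norm_num : (0 : ℤ) ≤ 2) h2 3
            linarith
          nlinarith
        omega
      obtain ⟨n, ρ', e, g, hG, hg, hdd, hid⟩ := ih _ hlt α₃ B rfl hα₃ hB
      have hsn : ¬ star ρ ∣ α₃ := by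
        rintro ⟨c, hc⟩
        refine hcube (star ρ) (pq_star hρ).prime.not_isUnit ⟨ρ * c, ?_⟩
        rw [hα, hc]
        ring
      have hne : ∀ i, nr (ρ' i) ≠ nr ρ := by
        intro i hi
        have h4 : ρ' i ∣ ρ * star ρ := by
          rw [mul_star, ← hi, ← mul_star]
          exact dvd_mul_right _ _
        rcases (hG.1 i).prime.dvd_or_dvd h4 with h5 | h5
        · have h6 := eq_of_dvdG hρ (hG.1 i) h5
          have h7 := star_dvd (hdd i).2
          rw [star_star, h6] at h7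
          exact hsn h7
        · have h6 := eq_of_dvdG (pq_star hρ) (hG.1 i) h5
          have h7 := (hdd i).1
          rw [h6] at h7
          exact hsn h7
      refine ⟨n + 1, Fin.cons ρ ρ', e, star ρ * g, ⟨?_, ?_, ?_⟩, ?_, ?_, ?_⟩
      · intro i
        refine Fin.cases ?_ (fun j => ?_) i
        · simpa using hρ
        · simpa using hG.1 j
      · intro i
        refine Fin.cases ?_ (fun j => ?_) i
        · simpa [hnρ] using hl
        · simpa using hG.2.1 j
      · intro i j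
        refine Fin.cases ?_ (fun i' => ?_) i
        · refine Fin.cases ?_ (fun j' => ?_) j
          · intro h
            exact absurd rfl h
          · intro _
            simpa using (hne j').symm
        · refine Fin.cases ?_ (fun j' => ?_) j
          · intro _
            simpa using hne i'
          · intro h
            simp only [Fin.cons_succ]
            exact hG.2.2 i' j' (fun h' => h (by rw [h']))
      · exact mul_ne_zero (pq_star hρ).prime.ne_zero hg
      · intro i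
        refine Fin.cases ?_ (fun j => ?_) i
        · simp only [Fin.cons_zero]
          refine ⟨?_, ?_⟩
          · rw [hα, mul_assoc]
            exact dvd_mul_right _ _
          · rw [hα, star_mul', star_mul', star_pow, star_star]
            exact ⟨star ρ * ρ * star α₃, by ring⟩
        · simp only [Fin.cons_succ]
          refine ⟨?_, ?_⟩
          · rw [hα]
            exact Dvd.dvd.mul_left (hdd j).1 _
          · rw [hα, star_mul']
            exact Dvd.dvd.mul_left (hdd j).2 _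
      · rw [Fin.prod_univ_succ, Fin.prod_univ_succ]
        simp only [Fin.cons_zero, Fin.cons_succ]
        rw [hα]
        linear_combination (ρ * star ρ ^ 3) * hid
    · -- inert
      exfalso
      obtain ⟨v, hv⟩ := hld
      have hv1 : nr v = 1 := by
        have h3 := congrArg nr hv
        rw [nr_nat, nr_mul, hn] at h3
        have h4 : ((l : ℤ) ^ 2) ≠ 0 := pow_ne_zero _ hl0
        exact (mul_left_cancel₀ h4 (by rw [mul_one]; exact h3)).symm
      have hlα : ((l : ℕ) : Ei) ∣ α := by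
        obtain ⟨v', hv'⟩ := isUnit_iff.2 hv1
        rw [hv, ← hv']
        exact (Units.mul_right_dvd).2 hd
      obtain ⟨α₁, h1⟩ := hlα
      have e1 : (l : ℤ) ^ 2 * nr α₁ = A ^ 3 := by rw [← hA, h1, nr_mul, nr_nat]
      obtain ⟨B, hB⟩ := hlp.dvd_of_dvd_pow
        (Dvd.intro (l * nr α₁) (by rw [← e1]; ring) : (l : ℤ) ∣ A ^ 3)
      have e2 : nr α₁ = l * B ^ 3 := by
        apply mul_left_cancel₀ (pow_ne_zero 2 hl0)
        rw [e1, hB]
        ring
      obtain ⟨α₂, h2⟩ := inert_dvd hl hl3 (Dvd.intro _ e2.symm)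
      have e3 : (l : ℤ) * nr α₂ = B ^ 3 := by
        apply mul_left_cancel₀ hl0
        rw [← e2, h2, nr_mul, nr_nat]
        ring
      obtain ⟨C, hC⟩ := hlp.dvd_of_dvd_pow (Dvd.intro _ e3 : (l : ℤ) ∣ B ^ 3)
      have e4 : nr α₂ = l * (l * C ^ 3) := by
        apply mul_left_cancel₀ hl0
        rw [e3, hC]
        ring
      obtain ⟨α₃, h3⟩ := inert_dvd hl hl3 (Dvd.intro _ e4.symm)
      refine hcube ((l : ℕ) : Ei) ?_ ⟨α₃, ?_⟩
      · rw [isUnit_iff, nr_nat]
        have : (2 : ℤ) ≤ l := by exact_mod_cast hl.two_le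
        nlinarith
      · rw [h1, h2, h3]
        ring

end FAC

/-- **FAC** -/
theorem t_FAC : S_FAC := fun α A h0 hA => FAC.main _ α A rfl h0 hA

end Pool.Agent.N17.HC
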