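import Pool.Agent.N17.HC.Stm

/-!
# Project HC: the final theorem from the statements KOS, LSP, CUB, QUA
-/

set_option autoImplicit false

open Polynomial Filter

namespace Pool.Agent.N17.HC

namespace FIN

theorem card_rootsOf (P : ℤ[X]) : Multiset.card (rootsOf P) = P.natDegree := by
  unfold rootsOf
  rw [← (IsAlgClosed.splits (P.map (Int.castRingHom ℂ))).natDegree_eq_card_roots,
    natDegree_map_eq_of_injective (RingHom.injective_int _)]

theorem prod_rootsOf (P : ℤ[X]) (hP : P.Monic) :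
    (rootsOf P).prod = (((-1) ^ P.natDegree * P.coeff 0 : ℤ) : ℂ) := by
  have h1 := (IsAlgClosed.splits (P.map (Int.castRingHom ℂ))).coeff_zero_eq_prod_roots_of_monic
    (hP.map _)
  rw [natDegree_map_eq_of_injective (RingHom.injective_int _), coeff_map] at h1
  unfold rootsOf
  push_cast
  simp only [eq_intCast] at h1
  rw [h1, ← mul_assoc, ← mul_pow]
  norm_num

/-- local splitting of the polynomial of the Chern roots -/
theorem loc (hK : S_KOS) (hL : S_LSP) (N r : ℕ) (P : ℤ[X]) (hP : P.Monic) (hr : P.natDegree = r)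
    (d : ℤ) (hd : (-1) ^ r * P.coeff 0 = d)
    (h1 : ∀ t : ℤ, ∃ z : ℤ, kos N (rootsOf P) (N + t) = z)
    (h2 : ∀ t : ℤ, ∃ z : ℤ, ((rootsOf P).map fun b => kos N (rootsOf P) (N + t - b)).sum = z)
    (p : ℕ) (hp : p.Prime) (hrp : r < p) (hpN : p + 2 * r ≤ N + 1) (hpd : ¬ (p : ℤ) ∣ d) :
    ∃ x : Fin r → ZMod p, P.map (Int.castRingHom (ZMod p)) = ∏ i, (X - C (x i)) := by
  have hd' : (rootsOf P).prod = d := by
    rw [prod_rootsOf P hP, hr, hd]
  refine hL (N - r) r P (d ^ (N + 1)) hP hr ?_ p hp hrp (by omega)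
    (fun h => hpd (Int.Prime.dvd_pow' hp h))
  intro k hk
  obtain ⟨z, hz⟩ := hK N (rootsOf P) d hd' h1 h2 k (by rw [card_rootsOf]; omega)
  refine ⟨d ^ (N - k) * z, ?_⟩
  have e : N + 1 = N - k + (k + 1) := by omega
  rw [e]
  push_cast
  rw [← hz, ← mul_assoc, ← pow_add]

/-- the polynomial of degree three -/
noncomputable def P3 {R : Type*} [CommRing R] (a b c : R) : R[X] :=
  X ^ 3 - C a * X ^ 2 + C b * X - C c

/-- the polynomial of degree four -/
noncomputable def P4 {R : Type*} [CommRing R] (a b c d : R) : R[X] :=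
  X ^ 4 - C a * X ^ 3 + C b * X ^ 2 - C c * X + C d

theorem form3 (P : ℤ[X]) (hP : P.Monic) (h : P.natDegree = 3) :
    P = P3 (-P.coeff 2) (P.coeff 1) (-P.coeff 0) := by
  have h3 : P.coeff 3 = 1 := by rw [← h]; exact hP.coeff_natDegree
  unfold P3
  conv_lhs => rw [P.as_sum_range_C_mul_X_pow, h]
  simp only [Finset.sum_range_succ, Finset.sum_range_zero, h3, map_neg]
  simp only [map_one]
  ring

theorem form4 (P : ℤ[X]) (hP : P.Monic) (h : P.natDegree = 4) :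
    P = P4 (-P.coeff 3) (P.coeff 2) (-P.coeff 1) (P.coeff 0) := by
  have h3 : P.coeff 4 = 1 := by rw [← h]; exact hP.coeff_natDegree
  unfold P4
  conv_lhs => rw [P.as_sum_range_C_mul_X_pow, h]
  simp only [Finset.sum_range_succ, Finset.sum_range_zero, h3, map_neg]
  simp only [map_one]
  ring

theorem comp3 (a b c : ℤ) : (P3 a b c).comp (X + 1) =
    P3 (a - 3) (b - 2 * a + 3) (c - b + a - 1) := by
  unfold P3
  simp only [sub_comp, add_comp, mul_comp, pow_comp, X_comp, C_comp]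
  simp only [map_sub, map_add, map_mul, map_ofNat, map_one]
  ring

theorem comp4 (a b c d : ℤ) : (P4 a b c d).comp (X + 1) =
    P4 (a - 4) (b - 3 * a + 6) (c - 2 * b + 3 * a - 4) (d - c + b - a + 1) := by
  unfold P4
  simp only [sub_comp, add_comp, mul_comp, pow_comp, X_comp, C_comp]
  simp only [map_sub, map_add, map_mul, map_ofNat, map_one]
  ring

theorem coeff3 {R : Type*} [CommRing R] (a b c : R) :
    (P3 a b c).coeff 0 = -c ∧ (P3 a b c).coeff 1 = b ∧ (P3 a b c).coeff 2 = -a := by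
  unfold P3
  refine ⟨?_, ?_, ?_⟩ <;> simp [coeff_X, coeff_X_pow, coeff_C]

theorem coeff4 {R : Type*} [CommRing R] (a b c d : R) :
    (P4 a b c d).coeff 0 = d ∧ (P4 a b c d).coeff 1 = -c ∧
    (P4 a b c d).coeff 2 = b ∧ (P4 a b c d).coeff 3 = -a := by
  unfold P4
  refine ⟨?_, ?_, ?_, ?_⟩ <;> simp [coeff_X, coeff_X_pow, coeff_C]

theorem map3 {R S : Type*} [CommRing R] [CommRing S] (f : R →+* S) (a b c : R) :
    (P3 a b c).map f = P3 (f a) (f b) (f c) := by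
  unfold P3
  simp

theorem map4 {R S : Type*} [CommRing R] [CommRing S] (f : R →+* S) (a b c d : R) :
    (P4 a b c d).map f = P4 (f a) (f b) (f c) (f d) := by
  unfold P4
  simp

theorem prod3 {R : Type*} [CommRing R] (x : Fin 3 → R) : ∏ i, (X - C (x i)) =
    P3 (x 0 + x 1 + x 2) (x 0 * x 1 + x 1 * x 2 + x 2 * x 0) (x 0 * x 1 * x 2) := by
  unfold P3
  rw [Fin.prod_univ_three]
  simp only [map_add, map_mul]
  ring

theorem prod4 {R : Type*} [CommRing R] (x : Fin 4 → R) : ∏ i, (X - C (x i)) =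
    P4 (x 0 + x 1 + x 2 + x 3)
      (x 0 * x 1 + x 0 * x 2 + x 0 * x 3 + x 1 * x 2 + x 1 * x 3 + x 2 * x 3)
      (x 0 * x 1 * x 2 + x 0 * x 1 * x 3 + x 0 * x 2 * x 3 + x 1 * x 2 * x 3)
      (x 0 * x 1 * x 2 * x 3) := by
  unfold P4
  rw [Fin.prod_univ_four]
  simp only [map_add, map_mul]
  ring

theorem inj3 {R : Type*} [CommRing R] {a b c a' b' c' : R} (h : P3 a b c = P3 a' b' c') :
    a = a' ∧ b = b' ∧ c = c' := by
  obtain ⟨h0, h1, h2⟩ := coeff3 a b c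
  obtain ⟨k0, k1, k2⟩ := coeff3 a' b' c'
  rw [h] at h0 h1 h2
  refine ⟨?_, ?_, ?_⟩
  · exact neg_injective (h2.symm.trans k2)
  · exact h1.symm.trans k1
  · exact neg_injective (h0.symm.trans k0)

theorem inj4 {R : Type*} [CommRing R] {a b c d a' b' c' d' : R}
    (h : P4 a b c d = P4 a' b' c' d') : a = a' ∧ b = b' ∧ c = c' ∧ d = d' := by
  obtain ⟨h0, h1, h2, h3⟩ := coeff4 a b c d
  obtain ⟨k0, k1, k2, k3⟩ := coeff4 a' b' c' d'
  rw [h] at h0 h1 h2 h3
  refine ⟨?_, ?_, ?_, ?_⟩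
  · exact neg_injective (h3.symm.trans k3)
  · exact h2.symm.trans k2
  · exact neg_injective (h1.symm.trans k1)
  · exact h0.symm.trans k0

theorem spl3 (a b c : ℤ) (p : ℕ) [NeZero p] (x : Fin 3 → ZMod p)
    (h : (P3 a b c).map (Int.castRingHom (ZMod p)) = ∏ i, (X - C (x i))) : Spl3 p a b c := by
  rw [prod3, map3] at h
  obtain ⟨k0, k1, k2⟩ := inj3 h
  simp only [eq_intCast] at k0 k1 k2
  refine ⟨((x 0).val : ℤ), ((x 1).val : ℤ), ((x 2).val : ℤ), ?_, ?_, ?_⟩ <;>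
    rw [← ZMod.intCast_zmod_eq_zero_iff_dvd] <;> push_cast <;> simp [k0, k1, k2]

theorem spl4 (a b c d : ℤ) (p : ℕ) [NeZero p] (x : Fin 4 → ZMod p)
    (h : (P4 a b c d).map (Int.castRingHom (ZMod p)) = ∏ i, (X - C (x i))) : Spl4 p a b c d := by
  rw [prod4, map4] at h
  obtain ⟨k0, k1, k2, k3⟩ := inj4 h
  simp only [eq_intCast] at k0 k1 k2 k3
  refine ⟨((x 0).val : ℤ), ((x 1).val : ℤ), ((x 2).val : ℤ), ((x 3).val : ℤ), ?_, ?_, ?_, ?_⟩ <;>
    rw [← ZMod.intCast_zmod_eq_zero_iff_dvd] <;> push_cast <;> simp [k0, k1, k2, k3]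

/-- transfer of the exponent from `N` to `y` -/
theorem transfer (F δ η c : ℝ) (h0 : 0 ≤ F - δ) (hη : η < δ) :
    ∀ᶠ y : ℕ in atTop, ∀ N : ℕ, N ≤ 2 * y →
      c * (N : ℝ) ^ (F - δ) ≤ (y : ℝ) ^ (F - η) := by
  have h1 : Tendsto (fun y : ℕ => (y : ℝ) ^ (δ - η)) atTop atTop :=
    (tendsto_rpow_atTop (sub_pos.2 hη)).comp tendsto_natCast_atTop_atTop
  filter_upwards [h1.eventually_ge_atTop (|c| * 2 ^ (F - δ)), eventually_ge_atTop 1]
    with y hy hy1 N hN
  have hy0 : (0 : ℝ) < y := by exact_mod_cast hy1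
  have hN' : (N : ℝ) ≤ 2 * y := by exact_mod_cast hN
  calc c * (N : ℝ) ^ (F - δ) ≤ |c| * (2 * (y : ℝ)) ^ (F - δ) := by
        apply mul_le_mul (le_abs_self c) _ (by positivity) (abs_nonneg c)
        exact Real.rpow_le_rpow (by positivity) hN' h0
    _ = |c| * 2 ^ (F - δ) * (y : ℝ) ^ (F - δ) := by
        rw [Real.mul_rpow (by norm_num) hy0.le]
        ring
    _ ≤ (y : ℝ) ^ (δ - η) * (y : ℝ) ^ (F - δ) := by gcongr
    _ = _ := by
        rw [← Real.rpow_add hy0]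
        congr 1
        ring

theorem exp_lb : (1.6 : ℝ) < Real.exp (1 / 2) := by
  have h1 : Real.exp (1 / 2) ^ 2 = Real.exp 1 := by
    rw [← Real.exp_nat_mul]
    norm_num
  have h2 := Real.exp_one_gt_d9
  have h3 := Real.exp_pos (1 / 2)
  nlinarith

theorem exp_ub : Real.exp (1 / 2) < 1.7 := by
  have h1 : Real.exp (1 / 2) ^ 2 = Real.exp 1 := by
    rw [← Real.exp_nat_mul]
    norm_num
  have h2 := Real.exp_one_lt_d9
  have h3 := Real.exp_pos (1 / 2)
  nlinarith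

theorem pos3 (x y z : ℤ) (h1 : 0 ≤ x + y + z - 3)
    (h2 : 0 ≤ (x * y + y * z + z * x) - 2 * (x + y + z) + 3)
    (h3 : 0 ≤ x * y * z - (x * y + y * z + z * x) + (x + y + z) - 1) : 1 ≤ x := by
  by_contra h
  have hu : 0 < 1 - x := by omega
  have e : (1 - x) ^ 3 + (x + y + z - 3) * (1 - x) ^ 2
      + ((x * y + y * z + z * x) - 2 * (x + y + z) + 3) * (1 - x)
      + (x * y * z - (x * y + y * z + z * x) + (x + y + z) - 1) = 0 := by ring
  have p0 : 0 < (1 - x) ^ 3 := by positivity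
  have p1 := mul_nonneg h1 (sq_nonneg (1 - x))
  have p2 := mul_nonneg h2 hu.le
  linarith

theorem pos4 (x y z t : ℤ) (h1 : 0 ≤ x + y + z + t - 4)
    (h2 : 0 ≤ (x * y + x * z + x * t + y * z + y * t + z * t) - 3 * (x + y + z + t) + 6)
    (h3 : 0 ≤ (x * y * z + x * y * t + x * z * t + y * z * t)
      - 2 * (x * y + x * z + x * t + y * z + y * t + z * t) + 3 * (x + y + z + t) - 4)
    (h4 : 0 ≤ x * y * z * t - (x * y * z + x * y * t + x * z * t + y * z * t)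
      + (x * y + x * z + x * t + y * z + y * t + z * t) - (x + y + z + t) + 1) : 1 ≤ x := by
  by_contra h
  have hu : 0 < 1 - x := by omega
  have e : (1 - x) ^ 4 + (x + y + z + t - 4) * (1 - x) ^ 3
      + ((x * y + x * z + x * t + y * z + y * t + z * t) - 3 * (x + y + z + t) + 6) * (1 - x) ^ 2
      + ((x * y * z + x * y * t + x * z * t + y * z * t)
      - 2 * (x * y + x * z + x * t + y * z + y * t + z * t) + 3 * (x + y + z + t) - 4) * (1 - x)
      + (x * y * z * t - (x * y * z + x * y * t + x * z * t + y * z * t)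
      + (x * y + x * z + x * t + y * z + y * t + z * t) - (x + y + z + t) + 1) = 0 := by ring
  have p0 : 0 < (1 - x) ^ 4 := by positivity
  have p1 := mul_nonneg h1 (pow_nonneg hu.le 3)
  have p2 := mul_nonneg h2 (sq_nonneg (1 - x))
  have p3 := mul_nonneg h3 hu.le
  linarith

/-- the bound of the discriminant -/
theorem disc_bd (a b c : ℤ) (ha0 : 0 ≤ a) (hb0 : 0 ≤ b) (hc : 1 ≤ c) (ha : a ≤ 3 * c)
    (hb : b ≤ 3 * c) : |disc3 a b c| ≤ 500 * c ^ 4 := by
  have hc0 : 0 ≤ c := by omega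
  have a2 : a ^ 2 ≤ 9 * c ^ 2 := by nlinarith
  have b2 : b ^ 2 ≤ 9 * c ^ 2 := by nlinarith
  have t1 : a ^ 2 * b ^ 2 ≤ 81 * c ^ 4 := by
    calc a ^ 2 * b ^ 2 ≤ (9 * c ^ 2) * (9 * c ^ 2) :=
          mul_le_mul a2 b2 (sq_nonneg b) (by positivity)
      _ = _ := by ring
  have c34 : c ^ 3 ≤ c ^ 4 := pow_le_pow_right₀ hc (by norm_num)
  have c24 : c ^ 2 ≤ c ^ 4 := pow_le_pow_right₀ hc (by norm_num)
  have t2 : b ^ 3 ≤ 27 * c ^ 4 := by
    calc b ^ 3 ≤ (3 * c) ^ 3 := pow_le_pow_left₀ hb0 hb 3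
      _ = 27 * c ^ 3 := by ring
      _ ≤ _ := by linarith
  have t3 : a ^ 3 * c ≤ 27 * c ^ 4 := by
    calc a ^ 3 * c ≤ (3 * c) ^ 3 * c := mul_le_mul_of_nonneg_right (pow_le_pow_left₀ ha0 ha 3) hc0
      _ = _ := by ring
  have t4 : a * b * c ≤ 9 * c ^ 4 := by
    calc a * b * c ≤ (3 * c) * (3 * c) * c :=
          mul_le_mul_of_nonneg_right (mul_le_mul ha hb hb0 (by positivity)) hc0
      _ = 9 * c ^ 3 := by ring
      _ ≤ _ := by linarith
  have s1 : 0 ≤ a ^ 2 * b ^ 2 := by positivity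
  have s2 : 0 ≤ b ^ 3 := by positivity
  have s3 : 0 ≤ a ^ 3 * c := by positivity
  have s4 : 0 ≤ a * b * c := by positivity
  have s5 : 0 ≤ c ^ 2 := by positivity
  unfold disc3
  rw [abs_le]
  constructor <;> nlinarith

/-- codimension three -/
theorem main3 (hK : S_KOS) (hL : S_LSP) (hC : S_CUB) (ε : ℝ) (hε : 0 < ε) (hε1 : ε ≤ 1 / 2) :
    ∃ N₀ : ℕ, ∀ N : ℕ, N₀ ≤ N → ∀ P : ℤ[X], P.Monic → P.natDegree = 3 →
    (∀ i, 0 ≤ (-1) ^ (3 - i) * (P.comp (X + 1)).coeff i) →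
    (∀ t : ℤ, ∃ z : ℤ, kos N (rootsOf P) (N + t) = z) →
    (∀ t : ℤ, ∃ z : ℤ, ((rootsOf P).map fun b => kos N (rootsOf P) (N + t - b)).sum = z) →
    (|P.coeff 0| : ℝ) ≤ (N : ℝ) ^ (Real.exp (1 / 2) - ε) →
    ∃ a : Fin 3 → ℤ, (∀ i, 1 ≤ a i) ∧ P = ∏ i, (X - C (a i)) := by
  have hE1 := exp_lb
  have hE2 := exp_ub
  have ev := (hC 3 4 ε hε).and ((transfer (4 * Real.exp (1 / 2)) (4 * ε) ε 500 (by linarith)
    (by linarith)).and ((transfer 2 (2 - (Real.exp (1 / 2) - ε)) (-2) 3 (by linarith)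
    (by linarith)).and (eventually_ge_atTop 1)))
  obtain ⟨y₀, hy₀⟩ := eventually_atTop.1 ev
  refine ⟨y₀ + 12, fun N hN P hP hr hpos h1 h2 hd => ?_⟩
  obtain ⟨q1, q2, q3, q4⟩ := hy₀ (N - 5) (by omega)
  set y := N - 5 with hy
  have hNy : N ≤ 2 * y := by omega
  obtain ⟨a, b, c, hPabc⟩ : ∃ a b c : ℤ, P = P3 a b c := ⟨_, _, _, form3 P hP hr⟩
  have hc0 : P.coeff 0 = -c := by rw [hPabc]; exact (coeff3 a b c).1
  have i0 := hpos 0
  have i1 := hpos 1
  have i2 := hpos 2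
  rw [hPabc, comp3] at i0 i1 i2
  obtain ⟨e0, e1, e2⟩ := coeff3 (a - 3) (b - 2 * a + 3) (c - b + a - 1)
  rw [e0] at i0
  rw [e1] at i1
  rw [e2] at i2
  norm_num at i0 i1 i2
  have hc1 : 1 ≤ c := by linarith
  have ha0 : 0 ≤ a := by linarith
  have hb0 : 0 ≤ b := by linarith
  have ha3 : a ≤ 3 * c := by linarith
  have hb3 : b ≤ 3 * c := by linarith
  have hcR : (c : ℝ) ≤ (N : ℝ) ^ (Real.exp (1 / 2) - ε) := by
    rw [hc0] at hd
    push_cast at hd
    rw [abs_neg] at hd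
    exact (le_abs_self _).trans hd
  have hc1R : (1 : ℝ) ≤ c := by exact_mod_cast hc1
  have ha0R : (0 : ℝ) ≤ a := by exact_mod_cast ha0
  have hb0R : (0 : ℝ) ≤ b := by exact_mod_cast hb0
  have ha3R : (a : ℝ) ≤ 3 * c := by exact_mod_cast ha3
  have hb3R : (b : ℝ) ≤ 3 * c := by exact_mod_cast hb3
  have h3c : 3 * (c : ℝ) ≤ (y : ℝ) ^ (4 : ℝ) := by
    have := q3 N hNy
    have e4 : (2 : ℝ) - -2 = 4 := by norm_num
    rw [sub_sub_cancel, e4] at this
    linarith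
  have hdisc : |((disc3 a b c : ℤ) : ℝ)| ≤ (y : ℝ) ^ (4 * Real.exp (1 / 2) - ε) := by
    have k1 : |((disc3 a b c : ℤ) : ℝ)| ≤ 500 * (c : ℝ) ^ 4 := by
      exact_mod_cast disc_bd a b c ha0 hb0 hc1 ha3 hb3
    have k2 : (c : ℝ) ^ 4 ≤ (N : ℝ) ^ (4 * Real.exp (1 / 2) - 4 * ε) := by
      calc (c : ℝ) ^ 4 ≤ ((N : ℝ) ^ (Real.exp (1 / 2) - ε)) ^ 4 :=
            pow_le_pow_left₀ (by linarith) hcR 4
        _ = _ := by
            rw [← Real.rpow_natCast, ← Real.rpow_mul (by positivity)]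
            congr 1
            push_cast
            ring
    have k3 := q2 N hNy
    linarith
  have hspl : ∀ p : ℕ, p.Prime → 3 < p → p ≤ y → ¬ (p : ℤ) ∣ c → Spl3 p a b c := by
    intro p hp h3p hpy hpc
    have : NeZero p := ⟨hp.ne_zero⟩
    obtain ⟨x, hx⟩ := loc hK hL N 3 P hP hr c (by rw [hc0]; ring) h1 h2 p hp h3p (by omega) hpc
    rw [hPabc] at hx
    exact spl3 a b c p x hx
  obtain ⟨u, v, t, f1, f2, f3⟩ := q1 a b c c (by omega)
    (by rw [abs_of_pos (by linarith)]; linarith)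
    (by rw [abs_of_nonneg ha0R]; linarith) (by rw [abs_of_nonneg hb0R]; linarith)
    (by rw [abs_of_pos (by linarith)]; linarith) hdisc hspl
  refine ⟨![u, v, t], ?_, ?_⟩
  · have g0 : 0 ≤ u * v * t - (u * v + v * t + t * u) + (u + v + t) - 1 := by
      rw [← f1, ← f2, ← f3]; linarith
    have g1 : 0 ≤ (u * v + v * t + t * u) - 2 * (u + v + t) + 3 := by
      rw [← f1, ← f2]; linarith
    have g2 : 0 ≤ u + v + t - 3 := by
      rw [← f1]; linarith
    intro i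
    fin_cases i
    · exact pos3 u v t (by linarith) (by linarith) (by linarith)
    · exact pos3 v t u (by linarith) (by linarith) (by linarith)
    · exact pos3 t u v (by linarith) (by linarith) (by linarith)
  · rw [prod3, hPabc, f1, f2, f3]
    rfl

/-- codimension four -/
theorem main4 (hK : S_KOS) (hL : S_LSP) (hQ : S_QUA) (ε : ℝ) (hε : 0 < ε) (hε1 : ε ≤ 1 / 2) :
    ∃ N₀ : ℕ, ∀ N : ℕ, N₀ ≤ N → ∀ P : ℤ[X], P.Monic → P.natDegree = 4 →
    (∀ i, 0 ≤ (-1) ^ (4 - i) * (P.comp (X + 1)).coeff i) →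
    (∀ t : ℤ, ∃ z : ℤ, kos N (rootsOf P) (N + t) = z) →
    (∀ t : ℤ, ∃ z : ℤ, ((rootsOf P).map fun b => kos N (rootsOf P) (N + t - b)).sum = z) →
    (|P.coeff 0| : ℝ) ≤ (N : ℝ) ^ (2 * Real.exp (1 / 2) / 3 - ε) →
    ∃ a : Fin 4 → ℤ, (∀ i, 1 ≤ a i) ∧ P = ∏ i, (X - C (a i)) := by
  have hE1 := exp_lb
  have hE2 := exp_ub
  have ev := (hQ 4 4 ε hε).and ((transfer (4 * Real.exp (1 / 2)) (6 * ε) ε (3000 * 6 ^ 6)
    (by linarith) (by linarith)).and ((transfer 2 (2 - (2 * Real.exp (1 / 2) / 3 - ε)) (-2) 6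
    (by linarith) (by linarith)).and (eventually_ge_atTop 1)))
  obtain ⟨y₀, hy₀⟩ := eventually_atTop.1 ev
  refine ⟨y₀ + 14, fun N hN P hP hr hpos h1 h2 hd => ?_⟩
  obtain ⟨q1, q2, q3, q4⟩ := hy₀ (N - 7) (by omega)
  set y := N - 7 with hy
  have hNy : N ≤ 2 * y := by omega
  obtain ⟨a, b, c, d, hPabc⟩ : ∃ a b c d : ℤ, P = P4 a b c d := ⟨_, _, _, _, form4 P hP hr⟩
  have hc0 : P.coeff 0 = d := by rw [hPabc]; exact (coeff4 a b c d).1
  have i0 := hpos 0
  have i1 := hpos 1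
  have i2 := hpos 2
  have i3 := hpos 3
  rw [hPabc, comp4] at i0 i1 i2 i3
  obtain ⟨e0, e1, e2, e3⟩ := coeff4 (a - 4) (b - 3 * a + 6) (c - 2 * b + 3 * a - 4)
    (d - c + b - a + 1)
  rw [e0] at i0
  rw [e1] at i1
  rw [e2] at i2
  rw [e3] at i3
  norm_num at i0 i1 i2 i3
  have hd1 : 1 ≤ d := by linarith
  have ha0 : 0 ≤ a := by linarith
  have hb0 : 0 ≤ b := by linarith
  have hc0' : 0 ≤ c := by linarith
  have ha3 : a ≤ 6 * d := by linarith
  have hb3 : b ≤ 6 * d := by linarith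
  have hc3 : c ≤ 6 * d := by linarith
  have hdR : (d : ℝ) ≤ (N : ℝ) ^ (2 * Real.exp (1 / 2) / 3 - ε) := by
    rw [hc0] at hd
    exact (le_abs_self _).trans hd
  have hd1R : (1 : ℝ) ≤ d := by exact_mod_cast hd1
  have ha0R : (0 : ℝ) ≤ a := by exact_mod_cast ha0
  have hb0R : (0 : ℝ) ≤ b := by exact_mod_cast hb0
  have hc0R : (0 : ℝ) ≤ c := by exact_mod_cast hc0'
  have ha3R : (a : ℝ) ≤ 6 * d := by exact_mod_cast ha3
  have hb3R : (b : ℝ) ≤ 6 * d := by exact_mod_cast hb3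
  have hc3R : (c : ℝ) ≤ 6 * d := by exact_mod_cast hc3
  have h3c : 6 * (d : ℝ) ≤ (y : ℝ) ^ (4 : ℝ) := by
    have := q3 N hNy
    have e4 : (2 : ℝ) - -2 = 4 := by norm_num
    rw [sub_sub_cancel, e4] at this
    linarith
  have hdisc : 3000 * (6 * (d : ℝ)) ^ 6 ≤ (y : ℝ) ^ (4 * Real.exp (1 / 2) - ε) := by
    have k2 : (d : ℝ) ^ 6 ≤ (N : ℝ) ^ (4 * Real.exp (1 / 2) - 6 * ε) := by
      calc (d : ℝ) ^ 6 ≤ ((N : ℝ) ^ (2 * Real.exp (1 / 2) / 3 - ε)) ^ 6 :=
            pow_le_pow_left₀ (by linarith) hdR 6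
        _ = _ := by
            rw [← Real.rpow_natCast, ← Real.rpow_mul (by positivity)]
            congr 1
            push_cast
            ring
    have k3 := q2 N hNy
    nlinarith
  have hspl : ∀ p : ℕ, p.Prime → 4 < p → p ≤ y → ¬ (p : ℤ) ∣ d → Spl4 p a b c d := by
    intro p hp h3p hpy hpc
    have : NeZero p := ⟨hp.ne_zero⟩
    obtain ⟨x, hx⟩ := loc hK hL N 4 P hP hr d (by rw [hc0]; ring) h1 h2 p hp h3p (by omega) hpc
    rw [hPabc] at hx
    exact spl4 a b c d p x hx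
  obtain ⟨u, v, t, s, f1, f2, f3, f4⟩ := q1 a b c d d (6 * d) (by omega)
    (by rw [abs_of_pos (by linarith)]; linarith) (by linarith)
    (by rw [abs_of_nonneg ha0R]; linarith) (by rw [abs_of_nonneg hb0R]; linarith)
    (by rw [abs_of_nonneg hc0R]; linarith) (by rw [abs_of_pos (by linarith)]; linarith)
    hdisc hspl
  refine ⟨![u, v, t, s], ?_, ?_⟩
  · have g0 : 0 ≤ u * v * t * s - (u * v * t + u * v * s + u * t * s + v * t * s)
        + (u * v + u * t + u * s + v * t + v * s + t * s) - (u + v + t + s) + 1 := by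
      rw [← f1, ← f2, ← f3, ← f4]; linarith
    have g1 : 0 ≤ (u * v * t + u * v * s + u * t * s + v * t * s)
        - 2 * (u * v + u * t + u * s + v * t + v * s + t * s) + 3 * (u + v + t + s) - 4 := by
      rw [← f1, ← f2, ← f3]; linarith
    have g2 : 0 ≤ (u * v + u * t + u * s + v * t + v * s + t * s) - 3 * (u + v + t + s) + 6 := by
      rw [← f1, ← f2]; linarith
    have g3 : 0 ≤ u + v + t + s - 4 := by
      rw [← f1]; linarith
    intro i
    fin_cases i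
    · exact pos4 u v t s (by linarith) (by linarith) (by linarith) (by linarith)
    · exact pos4 v t s u (by linarith) (by linarith) (by linarith) (by linarith)
    · exact pos4 t s u v (by linarith) (by linarith) (by linarith) (by linarith)
    · exact pos4 s u v t (by linarith) (by linarith) (by linarith) (by linarith)
  · rw [prod4, hPabc, f1, f2, f3, f4]
    rfl

end FIN

/-- the final theorem from the statements -/
theorem final (hK : S_KOS) (hL : S_LSP) (hC : S_CUB) (hQ : S_QUA) (ε : ℝ) (hε : 0 < ε) :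
    ∃ N₀ : ℕ, ∀ N : ℕ, N₀ ≤ N → ∀ r : ℕ, r = 3 ∨ r = 4 → ∀ P : ℤ[X], P.Monic → P.natDegree = r →
    (∀ i, 0 ≤ (-1) ^ (r - i) * (P.comp (X + 1)).coeff i) →
    (∀ t : ℤ, ∃ z : ℤ, kos N (rootsOf P) (N + t) = z) →
    (∀ t : ℤ, ∃ z : ℤ, ((rootsOf P).map fun b => kos N (rootsOf P) (N + t - b)).sum = z) →
    (|P.coeff 0| : ℝ) ≤ (N : ℝ) ^ (2 * Real.exp (1 / 2) / (r - 1) - ε) →
    ∃ a : Fin r → ℤ, (∀ i, 1 ≤ a i) ∧ P = ∏ i, (X - C (a i)) := by
  obtain ⟨A, hA⟩ := FIN.main3 hK hL hC (min ε (1 / 2)) (by positivity) (min_le_right _ _)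
  obtain ⟨B, hB⟩ := FIN.main4 hK hL hQ (min ε (1 / 2)) (by positivity) (min_le_right _ _)
  refine ⟨max (max A B) 1, fun N hN r hr P hP hd hpos h1 h2 hle => ?_⟩
  have hNA : A ≤ N := le_trans (le_trans (le_max_left _ _) (le_max_left _ _)) hN
  have hNB : B ≤ N := le_trans (le_trans (le_max_right _ _) (le_max_left _ _)) hN
  have hN1 : (1 : ℝ) ≤ N := by exact_mod_cast le_trans (le_max_right _ _) hN
  rcases hr with rfl | rfl
  · refine hA N hNA P hP hd hpos h1 h2 (hle.trans ?_)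
    apply Real.rpow_le_rpow_of_exponent_le hN1
    have := min_le_left ε (1 / 2)
    push_cast
    linarith
  · refine hB N hNB P hP hd hpos h1 h2 (hle.trans ?_)
    apply Real.rpow_le_rpow_of_exponent_le hN1
    have := min_le_left ε (1 / 2)
    push_cast
    linarith

end Pool.Agent.N17.HC
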