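import Pool.Agent.N17.HC.Stm

/-!
# Project HC, leaf KOS: integrality of the power sums up to powers of the degree
-/

set_option autoImplicit false

open Polynomial

namespace Pool.Agent.N17.HC
namespace KOS

theorem bin_choose (k : ℕ) (x : ℂ) : bin k x = Ring.choose x k := by
  have h := Ring.descPochhammer_eq_factorial_smul_choose x k
  rw [← Polynomial.aeval_eq_smeval, Polynomial.aeval_def, ← Polynomial.eval_map,
    descPochhammer_map, descPochhammer_eval_eq_prod_range, nsmul_eq_mul] at h
  rw [bin, h]
  exact mul_div_cancel_left₀ _ (by exact_mod_cast Nat.factorial_ne_zero k)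

/-- Pascal -/
theorem bin_pascal (n : ℕ) (x : ℂ) : bin (n + 1) x - bin (n + 1) (x - 1) = bin n (x - 1) := by
  rw [bin_choose, bin_choose, bin_choose]
  have h := Ring.choose_succ_succ (x - 1) n
  rw [sub_add_cancel] at h
  rw [h]; ring

theorem kos_pascal (n : ℕ) (s : Multiset ℂ) (x : ℂ) :
    kos (n + 1) s x - kos (n + 1) s (x - 1) = kos n s (x - 1) := by
  unfold kos
  rw [← Multiset.sum_map_sub]
  congr 1
  refine Multiset.map_congr rfl fun S _ => ?_
  rw [← mul_sub, show x - 1 - S.sum = x - S.sum - 1 by ring, bin_pascal]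

/-- the power series `(1 + w) ^ x` -/
noncomputable def u (x : ℂ) : PowerSeries ℂ := PowerSeries.mk fun k => bin k x

theorem u_add (x y : ℂ) : u (x + y) = u x * u y := by
  ext k
  rw [PowerSeries.coeff_mul, u, PowerSeries.coeff_mk, bin_choose,
    Ring.add_choose_eq k (Commute.all x y)]
  refine Finset.sum_congr rfl fun ij _ => ?_
  rw [u, u, PowerSeries.coeff_mk, PowerSeries.coeff_mk, bin_choose, bin_choose]

theorem bin_zero (x : ℂ) : bin 0 x = 1 := by simp [bin]

theorem bin_succ_zero (k : ℕ) : bin (k + 1) 0 = 0 := by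
  simp [bin, Finset.prod_range_succ']

theorem u_zero : u 0 = 1 := by
  ext k
  rw [u, PowerSeries.coeff_mk, PowerSeries.coeff_one]
  cases k with
  | zero => simp [bin_zero]
  | succ k => simp [bin_succ_zero]

/-- the product expansion -/
theorem prod_eq (s : Multiset ℂ) (y : ℂ) :
    u y * (s.map fun b => 1 - u (-b)).prod =
      (s.powerset.map fun S => (-1) ^ Multiset.card S * u (y - S.sum)).sum := by
  induction s using Multiset.induction_on generalizing y with
  | empty => simp
  | cons a s ih =>
    rw [Multiset.map_cons, Multiset.prod_cons, Multiset.powerset_cons, Multiset.map_add,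
      Multiset.sum_add, ← ih, Multiset.map_map]
    have h : (s.powerset.map ((fun S => (-1) ^ Multiset.card S * u (y - S.sum)) ∘
        (Multiset.cons a))).sum =
        -(s.powerset.map fun S => (-1) ^ Multiset.card S * u ((y - a) - S.sum)).sum := by
      rw [← Multiset.sum_map_neg]
      congr 1
      refine Multiset.map_congr rfl fun S _ => ?_
      simp only [Function.comp_apply, Multiset.card_cons, Multiset.sum_cons, pow_succ]
      rw [show y - (a + S.sum) = y - a - S.sum by ring]
      ring
    rw [h, ← ih, show y - a = y + -a by ring, u_add]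
    ring

theorem coeff_prod (s : Multiset ℂ) (y : ℂ) (k : ℕ) :
    PowerSeries.coeff k (u y * (s.map fun b => 1 - u (-b)).prod) = kos k s y := by
  rw [prod_eq, map_multiset_sum, Multiset.map_map, kos]
  congr 1
  refine Multiset.map_congr rfl fun S _ => ?_
  rw [Function.comp_apply, show ((-1 : PowerSeries ℂ) ^ Multiset.card S) =
    PowerSeries.C ((-1 : ℂ) ^ Multiset.card S) by simp, PowerSeries.coeff_C_mul, u,
    PowerSeries.coeff_mk]

/-- `1 - u (-b) = X * g b` -/
noncomputable def g (b : ℂ) : PowerSeries ℂ := PowerSeries.mk fun k => -bin (k + 1) (-b)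

theorem one_sub_u (b : ℂ) : 1 - u (-b) = PowerSeries.X * g b := by
  ext k
  cases k with
  | zero => simp [u, bin_zero]
  | succ k =>
    rw [PowerSeries.coeff_succ_X_mul, g, PowerSeries.coeff_mk, map_sub, u, PowerSeries.coeff_mk,
      PowerSeries.coeff_one]
    simp

theorem g_zero (b : ℂ) : PowerSeries.coeff 0 (g b) = b := by
  simp [g, bin]

theorem prod_one_sub (s : Multiset ℂ) :
    (s.map fun b => 1 - u (-b)).prod = PowerSeries.X ^ Multiset.card s * (s.map g).prod := by
  induction s using Multiset.induction_on with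
  | empty => simp
  | cons a s ih =>
    rw [Multiset.map_cons, Multiset.prod_cons, ih, Multiset.card_cons, Multiset.map_cons,
      Multiset.prod_cons, one_sub_u]
    ring

theorem coeff_prod_g_zero (s : Multiset ℂ) : PowerSeries.coeff 0 (s.map g).prod = s.prod := by
  induction s using Multiset.induction_on with
  | empty => simp
  | cons a s ih =>
    rw [Multiset.map_cons, Multiset.prod_cons, Multiset.prod_cons, ← ih,
      PowerSeries.coeff_zero_eq_constantCoeff_apply, map_mul,
      ← PowerSeries.coeff_zero_eq_constantCoeff_apply,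
      ← PowerSeries.coeff_zero_eq_constantCoeff_apply, g_zero]

/-- the integers in `ℂ` -/
def Z : Subring ℂ := (Int.castRingHom ℂ).range

theorem mem_Z {x : ℂ} : x ∈ Z ↔ ∃ z : ℤ, x = z := by
  unfold Z
  rw [RingHom.mem_range]
  constructor
  · rintro ⟨z, hz⟩; exact ⟨z, by rw [← hz]; rfl⟩
  · rintro ⟨z, hz⟩; exact ⟨z, by rw [hz]; rfl⟩

theorem descent (N : ℕ) (F : ℕ → ℂ → ℂ)
    (hF : ∀ n x, F (n + 1) x - F (n + 1) (x - 1) = F n (x - 1))
    (h0 : ∀ t : ℤ, F N (N + t) ∈ Z) (k : ℕ) (hk : k ≤ N) : ∀ t : ℤ, F k t ∈ Z := by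
  obtain ⟨j, rfl⟩ : ∃ j, N = k + j := ⟨N - k, by omega⟩
  induction j generalizing k with
  | zero =>
    intro t
    have h := h0 (t - k)
    push_cast at h
    simpa using h
  | succ j ih =>
    intro t
    have h1 := ih (k + 1) (by
      intro t
      have h := h0 t
      rw [show k + 1 + j = k + (j + 1) by ring]
      exact h) (by omega)
    have h := hF k (t + 1)
    rw [add_sub_cancel_right] at h
    rw [← h]
    refine Z.sub_mem ?_ (h1 t)
    have := h1 (t + 1)
    push_cast at this
    exact this

end KOS

open KOS in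
theorem t_KOS : S_KOS := by
  intro N s d hd h1 h2 k hk
  have k1 : ∀ k ≤ N, ∀ t : ℤ, kos k s t ∈ Z := fun k hk =>
    descent N (fun k x => kos k s x) (fun n x => kos_pascal n s x)
      (fun t => mem_Z.2 (h1 t)) k hk
  have k2 : ∀ k ≤ N, ∀ t : ℤ, (s.map fun b => kos k s (t - b)).sum ∈ Z := fun k hk =>
    descent N (fun k x => (s.map fun b => kos k s (x - b)).sum) (fun n x => by
      rw [← Multiset.sum_map_sub]
      congr 1
      refine Multiset.map_congr rfl fun b _ => ?_
      rw [show x - 1 - b = x - b - 1 by ring, kos_pascal])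
      (fun t => mem_Z.2 (h2 t)) k hk
  set E : PowerSeries ℂ := (s.map fun b => 1 - u (-b)).prod with hE
  set G : PowerSeries ℂ := (s.map g).prod with hG
  set p : PowerSeries ℂ := (s.map fun b => u (-b)).sum with hp
  set r := Multiset.card s with hr
  have hEG : E = PowerSeries.X ^ r * G := prod_one_sub s
  have hG0 : PowerSeries.coeff 0 G = d := by rw [hG, coeff_prod_g_zero, hd]
  -- the coefficients of `G`
  have hGk : ∀ k, k + r ≤ N → PowerSeries.coeff k G ∈ Z := by
    intro k hk
    have h := coeff_prod s 0 (k + r)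
    rw [u_zero, one_mul, ← hE, hEG, PowerSeries.coeff_X_pow_mul] at h
    rw [h]
    have := k1 (k + r) hk 0
    simpa using this
  have hpG : ∀ k, k + r ≤ N → PowerSeries.coeff k (p * G) ∈ Z := by
    intro k hk
    have h : PowerSeries.coeff (k + r) (p * E) = (s.map fun b => kos (k + r) s (-b)).sum := by
      rw [hp, ← Multiset.sum_map_mul_right, map_multiset_sum, Multiset.map_map]
      congr 1
      refine Multiset.map_congr rfl fun b _ => ?_
      rw [Function.comp_apply, hE, coeff_prod]
    rw [hEG, show p * (PowerSeries.X ^ r * G) = PowerSeries.X ^ r * (p * G) by ring,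
      PowerSeries.coeff_X_pow_mul] at h
    rw [h]
    have := k2 (k + r) hk 0
    simpa using this
  have hpk : ∀ k, PowerSeries.coeff k p = (s.map fun b => bin k (-b)).sum := by
    intro k
    rw [hp, map_multiset_sum, Multiset.map_map]
    congr 1
    refine Multiset.map_congr rfl fun b _ => ?_
    rw [Function.comp_apply, u, PowerSeries.coeff_mk]
  rw [← hpk, ← mem_Z]
  have hdZ : (d : ℂ) ∈ Z := mem_Z.2 ⟨d, rfl⟩
  induction k using Nat.strong_induction_on with
  | _ k ih =>
    have h := PowerSeries.coeff_mul k p G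
    rw [Finset.Nat.sum_antidiagonal_eq_sum_range_succ
      (fun i j => PowerSeries.coeff i p * PowerSeries.coeff j G), Finset.sum_range_succ,
      Nat.sub_self, hG0] at h
    have h' : (d : ℂ) ^ (k + 1) * PowerSeries.coeff k p =
        (d : ℂ) ^ k * PowerSeries.coeff k (p * G) - ∑ i ∈ Finset.range k,
          ((d : ℂ) ^ (i + 1) * PowerSeries.coeff i p) *
            ((d : ℂ) ^ (k - i - 1) * PowerSeries.coeff (k - i) G) := by
      rw [h, mul_add, Finset.mul_sum]
      have : ∀ i ∈ Finset.range k, ((d : ℂ) ^ (i + 1) * PowerSeries.coeff i p) *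
            ((d : ℂ) ^ (k - i - 1) * PowerSeries.coeff (k - i) G) =
            (d : ℂ) ^ k * (PowerSeries.coeff i p * PowerSeries.coeff (k - i) G) := by
        intro i hi
        rw [Finset.mem_range] at hi
        have e : (d : ℂ) ^ k = (d : ℂ) ^ (i + 1) * (d : ℂ) ^ (k - i - 1) := by
          rw [← pow_add]; congr 1; omega
        rw [e]; ring
      rw [Finset.sum_congr rfl this]
      ring
    rw [h']
    refine Z.sub_mem (Z.mul_mem (Z.pow_mem hdZ _) (hpG k hk)) (Z.sum_mem fun i hi => ?_)
    rw [Finset.mem_range] at hi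
    exact Z.mul_mem (ih i hi (by omega)) (Z.mul_mem (Z.pow_mem hdZ _) (hGk _ (by omega)))

end Pool.Agent.N17.HC
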