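import Pool.Agent.N17.HC.Stm
import Pool.Agent.R920.CH.Mod

/-!
# Project HC, leaf LSP: local splitting
-/

set_option autoImplicit false

open Polynomial

namespace Pool.Agent.N17.HC
namespace LSP

open Pool.Agent.R920.CH (IsIntegerValued natDegree_bin aeval_bin exists_fun sum_roots core_pow)

/-- the binomial polynomials of the starting library -/
noncomputable abbrev bq (k : ℕ) : ℚ[X] := Pool.Agent.R920.CH.bin k

theorem bq_eval (k m : ℕ) : (bq k).eval (m : ℚ) = m.choose k := by
  rw [bq, Pool.Agent.R920.CH.bin, eval_mul, eval_C, descPochhammer_eval_eq_descFactorial,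
    Nat.descFactorial_eq_factorial_mul_choose]
  push_cast
  have : (k.factorial : ℚ) ≠ 0 := by exact_mod_cast k.factorial_ne_zero
  field_simp

open fwdDiff in
/-- Newton's expansion -/
theorem newton (n : ℕ) (g : ℚ[X]) (hg : IsIntegerValued g) (hd : g.natDegree ≤ n) :
    ∃ c : ℕ → ℤ, g = ∑ k ∈ Finset.range (n + 1), C (c k : ℚ) * bq k := by
  choose F hF using hg
  refine ⟨fun k => (fwdDiff (1 : ℕ))^[k] (fun m : ℕ => F m) 0, ?_⟩
  apply Polynomial.eq_of_natDegree_lt_card_of_eval_eq' _ _
    ((Finset.range (n + 1)).image (fun m : ℕ => (m : ℚ)))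
  · intro x hx
    rw [Finset.mem_image] at hx
    obtain ⟨m, hm, rfl⟩ := hx
    rw [Finset.mem_range] at hm
    have h := shift_eq_sum_fwdDiff_iter (1 : ℕ) (fun m : ℕ => F m) m 0
    simp only [zero_add, smul_eq_mul, mul_one] at h
    have h1 := hF m
    rw [Int.cast_natCast] at h1
    rw [h1, h, eval_finsetSum]
    push_cast
    rw [← Finset.sum_subset (Finset.range_subset_range.2 hm)]
    · refine Finset.sum_congr rfl fun k _ => ?_
      rw [eval_mul, eval_C, bq_eval, nsmul_eq_mul, Int.cast_mul, mul_comm]
      rfl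
    · intro k _ hk
      rw [Finset.mem_range, not_lt] at hk
      rw [eval_mul, bq_eval, Nat.choose_eq_zero_of_lt (by omega)]
      simp
  · rw [Finset.card_image_of_injective _ Nat.cast_injective, Finset.card_range]
    refine max_lt (by omega) (Nat.lt_succ_of_le ?_)
    refine natDegree_sum_le_of_forall_le _ _ fun k hk => ?_
    rw [Finset.mem_range] at hk
    exact (natDegree_C_mul_le _ _).trans ((natDegree_bin k).trans (by omega))

/-- the integrality for all integer valued polynomials -/
theorem all (n : ℕ) (s : Multiset ℂ) (c : ℤ)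
    (h : ∀ k ≤ n, ∃ z : ℤ, (c : ℂ) * (s.map fun b => bin k (-b)).sum = z)
    (f : ℚ[X]) (hf : IsIntegerValued f) (hd : f.natDegree ≤ n) :
    ∃ z : ℤ, (c : ℂ) * (s.map fun b => aeval b f).sum = z := by
  obtain ⟨a, ha⟩ := newton n (f.comp (-X)) (by
    intro m
    obtain ⟨z, hz⟩ := hf (-m)
    refine ⟨z, ?_⟩
    rw [← hz, eval_comp]
    simp) (by
    refine natDegree_comp_le.trans ?_
    rw [natDegree_neg, natDegree_X, mul_one]
    exact hd)
  choose! z hz using h
  refine ⟨∑ k ∈ Finset.range (n + 1), a k * z k, ?_⟩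
  have h1 : ∀ b : ℂ, aeval b f = ∑ k ∈ Finset.range (n + 1), (a k : ℂ) * bin k (-b) := by
    intro b
    have h2 : aeval b f = aeval (-b) (f.comp (-X)) := by
      rw [aeval_comp]
      simp
    rw [h2, ha, map_sum]
    refine Finset.sum_congr rfl fun k _ => ?_
    rw [map_mul, aeval_C, aeval_bin, bin]
    rw [map_intCast]
    ring
  have h3 : (s.map fun b => aeval b f).sum =
      ∑ k ∈ Finset.range (n + 1), (a k : ℂ) * (s.map fun b => bin k (-b)).sum := by
    simp only [h1]
    show (s.map fun b => ((Finset.range (n + 1)).val.map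
      fun k => (a k : ℂ) * bin k (-b)).sum).sum = _
    rw [Multiset.sum_map_sum_map]
    refine Finset.sum_congr rfl fun k _ => ?_
    rw [Multiset.sum_map_mul_left]
  rw [h3, Finset.mul_sum]
  push_cast
  refine Finset.sum_congr rfl fun k hk => ?_
  rw [Finset.mem_range] at hk
  rw [← hz k (by omega)]
  ring

end LSP

open LSP in
open Pool.Agent.R920.CH (IsIntegerValued exists_fun sum_roots core_pow) in
theorem t_LSP : S_LSP := by
  classical
  intro n r P c hP hr hint p hpp hrp hpn hpc
  have hRR := LSP.all n (rootsOf P) c hint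
  have hp : Fact p.Prime := ⟨hpp⟩
  let K := AlgebraicClosure (ZMod p)
  have hchar : CharP K p := by infer_instance
  have hp0 : (p : ℚ) ≠ 0 := by exact_mod_cast hp.out.ne_zero
  have hdeg : (P.map (Int.castRingHom K)).natDegree = r := by rw [hP.natDegree_map, hr]
  set s : Multiset K := (P.map (Int.castRingHom K)).roots with hs
  have hcard : Multiset.card s = r := by
    rw [hs, splits_iff_card_roots.1 (IsAlgClosed.splits _), hdeg]
  have hpow : ∀ y ∈ s, y ^ p - y = 0 := by
    apply core_pow s (fun y => y ^ p - y)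
    · intro y hy _ h0
      rw [CharP.cast_eq_zero_iff K p] at h0
      have h1 := Multiset.count_le_card y s
      rw [hcard] at h1
      have h2 := Multiset.count_pos.2 hy
      exact absurd (Nat.le_of_dvd h2 h0) (by omega)
    · intro t ht
      rw [hcard] at ht
      set g : ℤ[X] := (X ^ p - X) * X ^ t with hg
      obtain ⟨m, hm⟩ := sum_roots P g hP
      set f : ℚ[X] := C ((p : ℚ)⁻¹) * g.map (Int.castRingHom ℚ) with hf
      have hfi : IsIntegerValued f := by
        intro a
        have h1 : (p : ℤ) ∣ a ^ p - a := by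
          rw [← ZMod.intCast_zmod_eq_zero_iff_dvd]
          push_cast
          rw [ZMod.pow_card, sub_self]
        obtain ⟨b, hb⟩ := h1
        refine ⟨b * a ^ t, ?_⟩
        rw [hf, eval_mul, eval_C, eval_intCast_map, hg, eval_mul, eval_sub, eval_pow, eval_X,
          eval_pow, eval_X, Int.cast_id, hb, eq_intCast]
        push_cast
        field_simp
      have hfd : f.natDegree ≤ n := by
        rw [hf]
        refine (natDegree_C_mul_le _ _).trans (natDegree_map_le.trans ?_)
        rw [hg]
        refine natDegree_mul_le.trans ?_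
        have h1 : (X ^ p - X : ℤ[X]).natDegree ≤ p := by
          refine (natDegree_sub_le _ _).trans ?_
          rw [natDegree_X_pow, natDegree_X]
          exact max_le le_rfl hp.out.one_le
        have h2 : (X ^ t : ℤ[X]).natDegree ≤ t := by rw [natDegree_X_pow]
        omega
      obtain ⟨z, hz⟩ := hRR f hfi hfd
      have hmC := hm ℂ
      have h1 : ((rootsOf P).map fun x => aeval x f).sum = (p : ℂ)⁻¹ * (m : ℂ) := by
        rw [← hmC, ← Multiset.sum_map_mul_left]
        congr 1
        refine Multiset.map_congr rfl fun x _ => ?_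
        rw [hf, map_mul, aeval_C]
        congr 1
        · simp
        · rw [aeval_def, aeval_def, eval₂_map]
          exact congrArg (fun φ : ℤ →+* ℂ => eval₂ φ x g) (RingHom.ext_int _ _)
      rw [h1] at hz
      have hpC : (p : ℂ) ≠ 0 := by exact_mod_cast hp.out.ne_zero
      have h2 : c * m = p * z := by
        have h3 : (c : ℂ) * (m : ℂ) = p * z := by
          rw [← hz]
          field_simp
        exact_mod_cast h3
      have hpm : (p : ℤ) ∣ m := by
        have h5 : (p : ℤ) ∣ c * m := ⟨z, h2⟩
        exact ((Nat.prime_iff_prime_int.1 hpp).dvd_or_dvd h5).resolve_left hpc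
      obtain ⟨z', hz'⟩ := hpm
      have h3 := hm K
      have h4 : (((p : ℤ) * z' : ℤ) : K) = 0 := by
        rw [Int.cast_mul, Int.cast_natCast, CharP.cast_eq_zero K p, zero_mul]
      rw [hz', h4] at h3
      rw [← h3]
      congr 1
      refine Multiset.map_congr rfl fun x _ => ?_
      rw [hg]
      simp
  have hbot : ∀ y ∈ s, ∃ a : ZMod p, algebraMap (ZMod p) K a = y := by
    intro y hy
    have h1 : y ∈ (⊥ : Subfield K) :=
      (Subfield.mem_bot_iff_pow_eq_self K p).2 (sub_eq_zero.1 (hpow y hy))
    rw [mem_bot_iff_intCast p K] at h1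
    obtain ⟨a, ha⟩ := h1
    exact ⟨a, by rw [map_intCast]; exact ha⟩
  choose! a ha using hbot
  obtain ⟨x, hx⟩ := exists_fun (s.map a) (r := r) (by rw [Multiset.card_map, hcard])
  refine ⟨x, ?_⟩
  apply Polynomial.map_injective (algebraMap (ZMod p) K) (algebraMap (ZMod p) K).injective
  rw [Polynomial.map_map, Polynomial.map_prod]
  have h1 : (algebraMap (ZMod p) K).comp (Int.castRingHom (ZMod p)) = Int.castRingHom K :=
    RingHom.ext_int _ _
  rw [h1]
  have h2 := (IsAlgClosed.splits (P.map (Int.castRingHom K))).eq_prod_roots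
  rw [(hP.map _).leadingCoeff, C_1, one_mul] at h2
  rw [h2, ← hs]
  have h3 : ∏ i, Polynomial.map (algebraMap (ZMod p) K) (X - C (x i)) =
      ((Finset.univ.val.map x).map fun b => (X - C (algebraMap (ZMod p) K b))).prod := by
    rw [Multiset.map_map]
    show _ = ∏ i, (X - C (algebraMap (ZMod p) K (x i)))
    refine Finset.prod_congr rfl fun i _ => ?_
    rw [Polynomial.map_sub, map_X, map_C]
  rw [h3, hx, Multiset.map_map]
  congr 1
  refine Multiset.map_congr rfl fun y hy => ?_
  show X - C y = X - C (algebraMap (ZMod p) K (a y))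
  rw [ha y hy]

end Pool.Agent.N17.HC
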