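import Pool.Agent.N17.HC.Stm

/-!
# Project HC: quartic polynomials which split modulo almost all small primes (QUA, helper966)
-/

set_option autoImplicit false

open Polynomial Filter

namespace Pool.Agent.N17.HC

namespace QUA

lemma disc_bound {u v w M : ℝ} (hM : 1 ≤ M) (hu : |u| ≤ M) (hv : |v| ≤ 5 * M ^ 2)
    (hw : |w| ≤ 6 * M ^ 3) :
    |u ^ 2 * v ^ 2 - 4 * v ^ 3 - 4 * u ^ 3 * w + 18 * u * v * w - 27 * w ^ 2| ≤ 3000 * M ^ 6 := by
  have h0 : 0 ≤ M := by linarith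
  have hM6 : 0 ≤ M ^ 6 := by positivity
  have e1 : |u ^ 2 * v ^ 2| ≤ 25 * M ^ 6 := by
    calc |u ^ 2 * v ^ 2| = |u| ^ 2 * |v| ^ 2 := by rw [abs_mul, abs_pow, abs_pow]
      _ ≤ M ^ 2 * (5 * M ^ 2) ^ 2 := by gcongr
      _ = 25 * M ^ 6 := by ring
  have e2 : |4 * v ^ 3| ≤ 500 * M ^ 6 := by
    calc |4 * v ^ 3| = 4 * |v| ^ 3 := by rw [abs_mul, abs_pow]; norm_num
      _ ≤ 4 * (5 * M ^ 2) ^ 3 := by gcongr
      _ = 500 * M ^ 6 := by ring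
  have e3 : |4 * u ^ 3 * w| ≤ 24 * M ^ 6 := by
    calc |4 * u ^ 3 * w| = 4 * |u| ^ 3 * |w| := by rw [abs_mul, abs_mul, abs_pow]; norm_num
      _ ≤ 4 * M ^ 3 * (6 * M ^ 3) := by gcongr
      _ = 24 * M ^ 6 := by ring
  have e4 : |18 * u * v * w| ≤ 540 * M ^ 6 := by
    calc |18 * u * v * w| = 18 * |u| * |v| * |w| := by
          rw [abs_mul, abs_mul, abs_mul]; norm_num
      _ ≤ 18 * M * (5 * M ^ 2) * (6 * M ^ 3) := by gcongr
      _ = 540 * M ^ 6 := by ring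
  have e5 : |27 * w ^ 2| ≤ 972 * M ^ 6 := by
    calc |27 * w ^ 2| = 27 * |w| ^ 2 := by rw [abs_mul, abs_pow]; norm_num
      _ ≤ 27 * (6 * M ^ 3) ^ 2 := by gcongr
      _ = 972 * M ^ 6 := by ring
  rw [abs_le] at e1 e2 e3 e4 e5 ⊢
  constructor <;> linarith [e1.1, e1.2, e2.1, e2.2, e3.1, e3.2, e4.1, e4.2, e5.1, e5.2]

lemma root_bound {u v w y M : ℝ} (hM : 1 ≤ M) (hu : |u| ≤ M) (hv : |v| ≤ 5 * M ^ 2)
    (hw : |w| ≤ 6 * M ^ 3) (h : y ^ 3 = u * y ^ 2 - v * y + w) : |y| ≤ 12 * M ^ 3 := by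
  by_contra hcon
  rw [not_le] at hcon
  have h0 : 0 ≤ M := by linarith
  have hM3 : 1 ≤ M ^ 3 := one_le_pow₀ hM
  have hM1 : M ≤ M ^ 3 := by
    calc M = M ^ 1 := (pow_one M).symm
      _ ≤ M ^ 3 := pow_le_pow_right₀ hM (by norm_num)
  have hM2 : M ^ 2 ≤ M ^ 3 := pow_le_pow_right₀ hM (by norm_num)
  set z := |y| with hz
  have hz1 : 1 ≤ z := by linarith
  have hzz : z ≤ z ^ 2 := by nlinarith
  have hz2 : 1 ≤ z ^ 2 := by nlinarith
  have e : z ^ 3 ≤ M * z ^ 2 + 5 * M ^ 2 * z + 6 * M ^ 3 := by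
    have e1 : z ^ 3 = |u * y ^ 2 - v * y + w| := by rw [hz, ← abs_pow, h]
    rw [e1]
    have e2 : |u * y ^ 2| ≤ M * z ^ 2 := by
      rw [abs_mul, abs_pow]; gcongr
    have e3 : |v * y| ≤ 5 * M ^ 2 * z := by
      rw [abs_mul]; gcongr
    rw [abs_le] at e2 e3 hw ⊢
    constructor <;> linarith [e2.1, e2.2, e3.1, e3.2, hw.1, hw.2]
  have e2 : M * z ^ 2 ≤ M ^ 3 * z ^ 2 := mul_le_mul_of_nonneg_right hM1 (by positivity)
  have e3 : 5 * M ^ 2 * z ≤ 5 * M ^ 3 * z ^ 2 := by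
    refine mul_le_mul (by linarith) hzz (by linarith) (by positivity)
  have e4 : 6 * M ^ 3 ≤ 6 * M ^ 3 * z ^ 2 := le_mul_of_one_le_right (by positivity) hz2
  have e5 : 12 * M ^ 3 * z ^ 2 < z * z ^ 2 := mul_lt_mul_of_pos_right hcon (by positivity)
  have e6 : z * z ^ 2 = z ^ 3 := by ring
  linarith

lemma div4 {a b c d t1 t2 t3 : ℤ} (hS : t1 ^ 2 + t2 ^ 2 + t3 ^ 2 = 3 * a ^ 2 - 8 * b)
    (hT : t1 * t2 * t3 = a ^ 3 - 4 * a * b + 8 * c)
    (hU : t1 ^ 2 * t2 ^ 2 + t2 ^ 2 * t3 ^ 2 + t3 ^ 2 * t1 ^ 2 =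
      3 * (a ^ 2 - 4 * b) ^ 2 + 8 * (a ^ 2 - 4 * b) * b + 16 * (a * c - 4 * d)) :
    ∃ q : ℤ, a + t1 + t2 + t3 = 4 * q := by
  set R := a + t1 + t2 + t3 with hR
  have h1 : R ^ 4 - 4 * a * R ^ 3 + 16 * b * R ^ 2 - 64 * c * R + 256 * d = 0 := by
    rw [hR]
    linear_combination (2 * (t1 + t2 + t3) ^ 2 -
      (t1 ^ 2 + t2 ^ 2 + t3 ^ 2 + 3 * a ^ 2 - 8 * b)) * hS + 8 * (t1 + t2 + t3) * hT + 4 * hU
  have h2 : (2 : ℤ) ∣ R := by
    apply Int.prime_two.dvd_of_dvd_pow (n := 4)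
    exact ⟨2 * a * R ^ 3 - 8 * b * R ^ 2 + 32 * c * R - 128 * d, by linear_combination h1⟩
  obtain ⟨S, hS'⟩ := h2
  have h3 : S ^ 4 = 2 * (a * S ^ 3 - 2 * b * S ^ 2 + 4 * c * S - 8 * d) := by
    rw [hS'] at h1
    have h4 : 16 * S ^ 4 = 16 * (2 * (a * S ^ 3 - 2 * b * S ^ 2 + 4 * c * S - 8 * d)) := by
      linear_combination h1
    exact mul_left_cancel₀ (by norm_num) h4
  have h4 : (2 : ℤ) ∣ S := Int.prime_two.dvd_of_dvd_pow (n := 4) ⟨_, h3⟩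
  obtain ⟨q, hq⟩ := h4
  exact ⟨q, by rw [hS', hq]; ring⟩

/-- The four roots. -/
lemma four {a b c d t1 t2 t3 : ℤ} (hS : t1 ^ 2 + t2 ^ 2 + t3 ^ 2 = 3 * a ^ 2 - 8 * b)
    (hT : t1 * t2 * t3 = a ^ 3 - 4 * a * b + 8 * c)
    (hU : t1 ^ 2 * t2 ^ 2 + t2 ^ 2 * t3 ^ 2 + t3 ^ 2 * t1 ^ 2 =
      3 * (a ^ 2 - 4 * b) ^ 2 + 8 * (a ^ 2 - 4 * b) * b + 16 * (a * c - 4 * d)) :
    ∃ x y z t : ℤ, a = x + y + z + t ∧ b = x * y + x * z + x * t + y * z + y * t + z * t ∧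
      c = x * y * z + x * y * t + x * z * t + y * z * t ∧ d = x * y * z * t := by
  obtain ⟨x, hx⟩ := div4 hS hT hU
  obtain ⟨y, hy⟩ := div4 (a := a) (b := b) (c := c) (t1 := t1) (t2 := -t2) (t3 := -t3) (d := d) (by linear_combination hS)
    (by linear_combination hT) (by linear_combination hU)
  obtain ⟨z, hz⟩ := div4 (a := a) (b := b) (c := c) (t1 := -t1) (t2 := t2) (t3 := -t3) (d := d) (by linear_combination hS)
    (by linear_combination hT) (by linear_combination hU)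
  obtain ⟨t, ht⟩ := div4 (a := a) (b := b) (c := c) (t1 := -t1) (t2 := -t2) (t3 := t3) (d := d) (by linear_combination hS)
    (by linear_combination hT) (by linear_combination hU)
  obtain rfl : a = x + y + z + t := by linarith
  obtain rfl : t1 = x + y - z - t := by linarith
  obtain rfl : t2 = x - y + z - t := by linarith
  obtain rfl : t3 = x - y - z + t := by linarith
  have hb : b = x * y + x * z + x * t + y * z + y * t + z * t := by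
    have : 8 * b = 8 * (x * y + x * z + x * t + y * z + y * t + z * t) := by
      linear_combination hS
    exact mul_left_cancel₀ (by norm_num) this
  subst hb
  have hc : c = x * y * z + x * y * t + x * z * t + y * z * t := by
    have : 8 * c = 8 * (x * y * z + x * y * t + x * z * t + y * z * t) := by
      linear_combination -hT
    exact mul_left_cancel₀ (by norm_num) this
  subst hc
  have hd : d = x * y * z * t := by
    have : 64 * d = 64 * (x * y * z * t) := by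
      linear_combination hU
    exact mul_left_cancel₀ (by norm_num) this
  exact ⟨x, y, z, t, rfl, rfl, rfl, hd⟩

lemma res_mod {p : ℕ} {a b c d x y z t α β γ δ : ℤ} (hα : a - (x + y + z + t) = p * α)
    (hβ : b - (x * y + x * z + x * t + y * z + y * t + z * t) = p * β)
    (hγ : c - (x * y * z + x * y * t + x * z * t + y * z * t) = p * γ)
    (hδ : d - x * y * z * t = p * δ) :
    (p : ℤ) ∣ (a * c - 4 * d) - ((x * y + z * t) * (x * z + y * t) +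
      (x * z + y * t) * (x * t + y * z) + (x * t + y * z) * (x * y + z * t)) ∧
    (p : ℤ) ∣ (c ^ 2 + a ^ 2 * d - 4 * b * d) -
      (x * y + z * t) * (x * z + y * t) * (x * t + y * z) := by
  constructor
  · refine ⟨(x + y + z + t) * γ + α * c - 4 * δ, ?_⟩
    linear_combination c * hα + (x + y + z + t) * hγ - 4 * hδ
  · refine ⟨γ * (c + (x * y * z + x * y * t + x * z * t + y * z * t)) +
      α * (a + (x + y + z + t)) * (x * y * z * t) + a ^ 2 * δ - 4 * β * (x * y * z * t) -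
        4 * b * δ, ?_⟩
    linear_combination (c + (x * y * z + x * y * t + x * z * t + y * z * t)) * hγ +
      (a + (x + y + z + t)) * (x * y * z * t) * hα + a ^ 2 * hδ -
      4 * (x * y * z * t) * hβ - 4 * b * hδ

lemma spl3_of_spl4 {p : ℕ} {a b c d : ℤ} (h : Spl4 p a b c d) :
    Spl3 p b (a * c - 4 * d) (c ^ 2 + a ^ 2 * d - 4 * b * d) := by
  obtain ⟨x, y, z, t, ⟨α, hα⟩, ⟨β, hβ⟩, ⟨γ, hγ⟩, ⟨δ, hδ⟩⟩ := h
  obtain ⟨h1, h2⟩ := res_mod hα hβ hγ hδ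
  exact ⟨x * y + z * t, x * z + y * t, x * t + y * z,
    ⟨β, by linear_combination hβ⟩, h1, h2⟩

lemma sq_mod {p : ℕ} (hp : p.Prime) {a b c d m : ℤ} (h : Spl4 p a b c d)
    (hm : m ^ 3 - b * m ^ 2 + (a * c - 4 * d) * m - (c ^ 2 + a ^ 2 * d - 4 * b * d) = 0) :
    ∃ t : ℤ, (p : ℤ) ∣ a ^ 2 - 4 * b + 4 * m - t ^ 2 := by
  have hpp : Prime (p : ℤ) := Nat.prime_iff_prime_int.1 hp
  obtain ⟨x, y, z, t, ⟨α, hα⟩, ⟨β, hβ⟩, ⟨γ, hγ⟩, ⟨δ, hδ⟩⟩ := id h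
  have h1 : (p : ℤ) ∣ (m - (x * y + z * t)) * (m - (x * z + y * t)) * (m - (x * t + y * z)) := by
    obtain ⟨h3, h4⟩ := res_mod hα hβ hγ hδ
    obtain ⟨u, hu⟩ := h3
    obtain ⟨v, hv⟩ := h4
    refine ⟨β * m ^ 2 - u * m + v, ?_⟩
    linear_combination hm + m ^ 2 * hβ - m * hu + hv
  rcases hpp.dvd_or_dvd h1 with h2 | h2
  · rcases hpp.dvd_or_dvd h2 with ⟨u, hu⟩ | ⟨u, hu⟩
    · refine ⟨x + y - z - t, α * (a + (x + y + z + t)) - 4 * β + 4 * u, ?_⟩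
      linear_combination (a + (x + y + z + t)) * hα - 4 * hβ + 4 * hu
    · refine ⟨x + z - y - t, α * (a + (x + y + z + t)) - 4 * β + 4 * u, ?_⟩
      linear_combination (a + (x + y + z + t)) * hα - 4 * hβ + 4 * hu
  · obtain ⟨u, hu⟩ := h2
    refine ⟨x + t - y - z, α * (a + (x + y + z + t)) - 4 * β + 4 * u, ?_⟩
    linear_combination (a + (x + y + z + t)) * hα - 4 * hβ + 4 * hu

end QUA

theorem t_QUA (hC : S_CUB) (h2 : S_M2) : S_QUA := by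
  intro k A ε hε
  set E := 4 * Real.exp (1 / 2) - ε with hE
  filter_upwards [hC k (max A E) ε hε, h2 k (max A E) ε hε, eventually_ge_atTop 1] with
    y hy1 hy2 hy a b c d B M hB hBA hM ha hb hc hd hM6 hspl
  have hyr : (1 : ℝ) ≤ y := by exact_mod_cast hy
  have hBA' : (|B| : ℝ) ≤ (y : ℝ) ^ (max A E) :=
    hBA.trans (Real.rpow_le_rpow_of_exponent_le hyr (le_max_left _ _))
  have hbig : ∀ z : ℝ, z ≤ 3000 * M ^ 6 → z ≤ (y : ℝ) ^ (max A E) := fun z hz =>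
    (hz.trans hM6).trans (Real.rpow_le_rpow_of_exponent_le hyr (le_max_right _ _))
  have h0 : 0 ≤ M := by linarith
  have hM1 : M ≤ M ^ 6 := by
    calc M = M ^ 1 := (pow_one M).symm
      _ ≤ M ^ 6 := pow_le_pow_right₀ hM (by norm_num)
  have hM2 : M ^ 2 ≤ M ^ 6 := pow_le_pow_right₀ hM (by norm_num)
  have hM3 : M ^ 3 ≤ M ^ 6 := pow_le_pow_right₀ hM (by norm_num)
  have hM12 : M ≤ M ^ 2 := by nlinarith
  have hM23 : M ^ 2 ≤ M ^ 3 := pow_le_pow_right₀ hM (by norm_num)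
  have hMp : 0 ≤ M ^ 6 := by positivity
  -- the resolvent cubic
  have hb' : |((a * c - 4 * d : ℤ) : ℝ)| ≤ 5 * M ^ 2 := by
    push_cast
    have e1 : |(a : ℝ) * c| ≤ M * M := by rw [abs_mul]; gcongr
    have e2 : |4 * (d : ℝ)| ≤ 4 * M := by
      rw [abs_mul]
      norm_num
      exact hd
    rw [abs_le] at e1 e2 ⊢
    constructor <;> nlinarith [e1.1, e1.2, e2.1, e2.2]
  have hc' : |((c ^ 2 + a ^ 2 * d - 4 * b * d : ℤ) : ℝ)| ≤ 6 * M ^ 3 := by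
    push_cast
    have e1 : |(c : ℝ) ^ 2| ≤ M ^ 2 := by rw [abs_pow]; gcongr
    have e2 : |(a : ℝ) ^ 2 * d| ≤ M ^ 2 * M := by rw [abs_mul, abs_pow]; gcongr
    have e3 : |4 * (b : ℝ) * d| ≤ 4 * M * M := by
      rw [abs_mul, abs_mul]
      have : |(4 : ℝ)| = 4 := by norm_num
      rw [this]
      gcongr
    rw [abs_le] at e1 e2 e3 ⊢
    constructor <;> nlinarith [e1.1, e1.2, e2.1, e2.2, e3.1, e3.2]
  have hcub := hy1 b (a * c - 4 * d) (c ^ 2 + a ^ 2 * d - 4 * b * d) B hB hBA'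
    (hbig _ (by linarith)) (hbig _ (by linarith)) (hbig _ (by linarith)) (by
      refine le_trans ?_ hM6
      have := QUA.disc_bound hM hb hb' hc'
      have e : ((disc3 b (a * c - 4 * d) (c ^ 2 + a ^ 2 * d - 4 * b * d) : ℤ) : ℝ) =
          (b : ℝ) ^ 2 * ((a * c - 4 * d : ℤ) : ℝ) ^ 2 - 4 * ((a * c - 4 * d : ℤ) : ℝ) ^ 3 -
          4 * (b : ℝ) ^ 3 * ((c ^ 2 + a ^ 2 * d - 4 * b * d : ℤ) : ℝ) +
          18 * (b : ℝ) * ((a * c - 4 * d : ℤ) : ℝ) *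
            ((c ^ 2 + a ^ 2 * d - 4 * b * d : ℤ) : ℝ) -
          27 * ((c ^ 2 + a ^ 2 * d - 4 * b * d : ℤ) : ℝ) ^ 2 := by
        rw [disc3]
        push_cast
        ring
      rw [e]
      exact this)
    (fun p hp hkp hpy hpB => QUA.spl3_of_spl4 (hspl p hp hkp hpy hpB))
  obtain ⟨y1, y2, y3, hs1, hs2, hs3⟩ := hcub
  have hsq : ∀ m : ℤ, m ^ 3 - b * m ^ 2 + (a * c - 4 * d) * m -
      (c ^ 2 + a ^ 2 * d - 4 * b * d) = 0 → ∃ t, a ^ 2 - 4 * b + 4 * m = t ^ 2 := by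
    intro m hm
    have hmr : |(m : ℝ)| ≤ 12 * M ^ 3 := by
      refine QUA.root_bound hM hb hb' hc' ?_
      have e : (m : ℤ) ^ 3 = b * m ^ 2 - (a * c - 4 * d) * m +
          (c ^ 2 + a ^ 2 * d - 4 * b * d) := by linear_combination hm
      exact_mod_cast e
    have h3 := hy2 (a ^ 2 - 4 * b + 4 * m) B hB hBA' (by
      refine le_trans ?_ hM6
      push_cast
      have e1 : |(a : ℝ) ^ 2| ≤ M ^ 2 := by rw [abs_pow]; gcongr
      rw [abs_le] at e1 hmr hb ⊢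
      constructor <;> nlinarith [e1.1, e1.2, hmr.1, hmr.2, hb.1, hb.2])
      (fun p hp hkp hpy hpB => QUA.sq_mod hp (hspl p hp hkp hpy hpB) hm)
    obtain ⟨t, ht⟩ := h3
    exact ⟨t, by rw [ht]; ring⟩
  obtain ⟨t1, ht1⟩ := hsq y1 (by rw [hs2, hs3]; rw [hs1]; ring)
  obtain ⟨t2, ht2⟩ := hsq y2 (by rw [hs2, hs3]; rw [hs1]; ring)
  obtain ⟨t3, ht3⟩ := hsq y3 (by rw [hs2, hs3]; rw [hs1]; ring)
  have hS : t1 ^ 2 + t2 ^ 2 + t3 ^ 2 = 3 * a ^ 2 - 8 * b := by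
    rw [← ht1, ← ht2, ← ht3]
    linear_combination -4 * hs1
  have hU : t1 ^ 2 * t2 ^ 2 + t2 ^ 2 * t3 ^ 2 + t3 ^ 2 * t1 ^ 2 =
      3 * (a ^ 2 - 4 * b) ^ 2 + 8 * (a ^ 2 - 4 * b) * b + 16 * (a * c - 4 * d) := by
    rw [← ht1, ← ht2, ← ht3]
    linear_combination -8 * (a ^ 2 - 4 * b) * hs1 - 16 * hs2
  have hT2 : (t1 * t2 * t3) ^ 2 = (a ^ 3 - 4 * a * b + 8 * c) ^ 2 := by
    rw [mul_pow, mul_pow, ← ht1, ← ht2, ← ht3]
    linear_combination -4 * (a ^ 2 - 4 * b) ^ 2 * hs1 - 16 * (a ^ 2 - 4 * b) * hs2 - 64 * hs3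
  rcases sq_eq_sq_iff_eq_or_eq_neg.1 hT2 with hT | hT
  · exact QUA.four hS hT hU
  · exact QUA.four (a := a) (b := b) (c := c) (d := d) (t1 := -t1) (t2 := t2) (t3 := t3) (by linear_combination hS) (by linear_combination -hT)
      (by linear_combination hU)

end Pool.Agent.N17.HC

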