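import Pool.Agent.N17.HC.StmB
import Pool.Agent.N758.HCB.Bas

/-!
# Project HC, part REC (helper758): cubic reciprocity applied
-/

set_option autoImplicit false

namespace Pool.Agent.N17.HC

open Pool.Agent.Y692.QS
open Pool.Agent.Y715.T.Rec (cs nn not_unit)
open Pool.Agent.Y715.T.RecG (Pq cs_of cs_mul cs_pow cs_prod cs_zero_iff cs_comm cs_neg)
open Pool.Agent.Y405.CT (below nat_int pq_star cs_starG)
open Pool.Agent.N758.HCB

namespace REC

theorem not_dvd_unit {π : Ei} (h : Pq π) {u : Ei} (hu : IsUnit u) : ¬ π ∣ u := fun h1 =>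
  h.prime.not_isUnit (isUnit_of_dvd_unit h1 hu)

theorem w_unit : IsUnit (w : Ei) := isUnit_iff.2 (by decide)

/-- the symbol of the identity -/
theorem key {α g π : Ei} {n : ℕ} {ρ : Fin n → Ei} {e : ZMod 3} (h : Pq π)
    (hid : α * ∏ i, star (ρ i) = w ^ e.val * (∏ i, ρ i) * g ^ 3) (hα : ¬ π ∣ α)
    (h1 : ∀ i, ¬ π ∣ ρ i) (h2 : ∀ i, ¬ π ∣ star (ρ i)) (h0 : cs π α = 0) :
    ∑ i, cs π (star (ρ i)) = e * cs π w + ∑ i, cs π (ρ i) := by
  have hp := h.prime
  have h9 := h.norm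
  have h1' : ¬ π ∣ ∏ i, ρ i := by
    intro h3
    obtain ⟨i, -, h4⟩ := (hp.dvd_finsetProd_iff _).1 h3
    exact h1 i h4
  have h2' : ¬ π ∣ ∏ i, star (ρ i) := by
    intro h3
    obtain ⟨i, -, h4⟩ := (hp.dvd_finsetProd_iff _).1 h3
    exact h2 i h4
  have hw : ¬ π ∣ w := not_dvd_unit h w_unit
  have hwe : ¬ π ∣ w ^ e.val := fun h3 => hw (hp.dvd_of_dvd_pow h3)
  have hg : ¬ π ∣ g := by
    intro h3
    have h4 : π ∣ α * ∏ i, star (ρ i) := by
      rw [hid]
      exact Dvd.dvd.mul_left (dvd_pow h3 (by norm_num)) _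
    rcases hp.dvd_or_dvd h4 with h5 | h5
    · exact hα h5
    · exact h2' h5
  have hg3 : ¬ π ∣ g ^ 3 := fun h3 => hg (hp.dvd_of_dvd_pow h3)
  have h12 : ¬ π ∣ w ^ e.val * ∏ i, ρ i := by
    intro h3
    rcases hp.dvd_or_dvd h3 with h5 | h5
    · exact hwe h5
    · exact h1' h5
  have h3 := congrArg (cs π) hid
  rw [cs_mul hp h9 hα h2', cs_mul hp h9 h12 hg3, cs_mul hp h9 hwe h1', cs_pow hp h9 hw,
    cs_pow hp h9 hg, cs_prod hp h9 _ _ (fun i _ => h1 i), cs_prod hp h9 _ _ (fun i _ => h2 i), h0,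
    ZMod.natCast_zmod_val] at h3
  have h4 : ((3 : ℕ) : ZMod 3) = 0 := rfl
  rw [h4, zero_mul, add_zero, zero_add] at h3
  exact h3

end REC

open REC

/-- **REC** -/
theorem t_REC : S_REC := by
  intro α n ρ e g hG hid p hp hp3 hpα hpρ hθ
  obtain ⟨hq, hprime, hdist⟩ := hG
  obtain ⟨π, hπ, hπp, hcase⟩ := above hp (by omega)
  have hlp : Prime (p : ℤ) := Nat.prime_iff_prime_int.1 hp
  -- the primes do not divide
  have hpn : (p : ℤ) ∣ nr π := by
    rcases hcase with ⟨-, h1⟩ | ⟨-, h1⟩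
    · rw [h1]
    · rw [h1]
      exact dvd_pow_self _ (by norm_num)
  have hα : ¬ π ∣ α := fun h => hpα (hpn.trans (nr_dvd h))
  have h1 : ∀ i, ¬ π ∣ ρ i := fun i h => hpρ i (hpn.trans (nr_dvd h))
  have h2 : ∀ i, ¬ π ∣ star (ρ i) := fun i h => hpρ i (by
    have h3 := hpn.trans (nr_dvd h)
    rwa [nr_star] at h3)
  have h0 : cs π α = 0 := by
    obtain ⟨θ, hθ⟩ := hθ
    exact (cs_zero_iff hπ.prime hπ.norm hα).2 ⟨θ, hπp.trans hθ⟩
  have hkey := key hπ hid hα h1 h2 h0
  have hnp : ∀ i, ¬ ρ i ∣ ((p : ℕ) : Ei) := by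
    intro i h
    have h3 := nr_dvd h
    rw [nr_nat] at h3
    have h4 : Prime (nr (ρ i)) := by
      have h5 := Nat.prime_iff_prime_int.1 (hprime i)
      have h6 : (((nr (ρ i)).natAbs : ℕ) : ℤ) = nr (ρ i) := Int.natAbs_of_nonneg (nr_nonneg _)
      rwa [h6] at h5
    have h5 := h4.dvd_of_dvd_pow h3
    exact hpρ i ((h4.dvd_prime_iff_associated hlp).1 h5).symm.dvd
  have hne : ∀ i, nr π ≠ nr (ρ i) := fun i h => hpρ i (h ▸ hpn)
  rcases hcase with ⟨hmod, hn⟩ | ⟨hmod, hn⟩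
  · -- split primes
    have hps : ((p : ℕ) : Ei) = π * star π := by
      rw [mul_star, hn]
      push_cast
      rfl
    have hws := cs_w1 hπ hn hmod
    rw [hws] at hkey
    have h3 : ∀ i, cs (ρ i) (p : Ei) = cs π (ρ i) - cs π (star (ρ i)) := by
      intro i
      have hnp1 : ¬ ρ i ∣ π := fun h => hnp i (h.trans hπp)
      have hnp2 : ¬ ρ i ∣ star π := fun h => hnp i (by
        rw [hps]
        exact h.trans (dvd_mul_left _ _))
      rw [hps, cs_mul (hq i).prime (hq i).norm hnp1 hnp2, cs_comm hπ (hq i) (hne i)]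
      have h4 := cs_starG (hq i) (x := star π) hnp2
      rw [star_star] at h4
      have h5 := cs_comm hπ (pq_star (hq i)) (by
        rw [nr_star]
        exact hne i)
      rw [← h5, h4, sub_neg_eq_add]
    rw [Finset.sum_congr rfl fun i _ => h3 i, Finset.sum_sub_distrib, hkey]
    ring
  · -- inert primes
    obtain ⟨u, hu⟩ := hπp
    have hu1 : nr u = 1 := by
      have h3 := congrArg nr hu
      rw [nr_nat, nr_mul, hn] at h3
      have h4 : ((p : ℤ) ^ 2) ≠ 0 := pow_ne_zero _ (by exact_mod_cast hp.ne_zero)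
      exact (mul_left_cancel₀ h4 (by rw [mul_one]; exact h3)).symm
    have hneg : π = -((p : ℕ) : Ei) := by
      have hP : Pq (-((p : ℕ) : Ei)) := by
        constructor
        · obtain ⟨v, hv⟩ := isUnit_iff.2 hu1
          refine Prime.neg ?_
          rw [hu, ← hv]
          exact (Associated.prime_iff ⟨v, rfl⟩).1 hπ.prime
        · have e1 : (-((p : ℕ) : Ei) - 1) = (((-(p : ℤ) - 1 : ℤ)) : Ei) := by push_cast; rfl
          rw [e1]
          have e2 : (3 : Ei) = (((3 : ℤ)) : Ei) := by push_cast; rfl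
          rw [e2, int_dvd_int]
          omega
      refine Pool.Agent.Y405.CT.eq_of_dvdG hP hπ ?_
      rw [dvd_neg, hu]
      exact dvd_mul_right _ _
    have hstar : star π = π := by
      rw [hneg, star_neg, nat_int]
      congr 1
    have hws := cs_w2 hπ hn hmod
    rw [hws] at hkey
    have h3 : ∀ i, cs π (star (ρ i)) = -cs π (ρ i) := by
      intro i
      have h4 := cs_starG hπ (x := ρ i) (h1 i)
      rwa [hstar] at h4
    have h5 : ∀ i, cs (ρ i) (p : Ei) = cs π (ρ i) := by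
      intro i
      rw [← cs_comm hπ (hq i) (hne i), hneg, cs_neg (hq i).prime (hq i).norm (hnp i)]
    rw [Finset.sum_congr rfl fun i _ => h3 i, Finset.sum_neg_distrib] at hkey
    rw [Finset.sum_congr rfl fun i _ => h5 i]
    generalize ∑ i, cs π (ρ i) = S at hkey
    generalize lam9 p = c at hkey
    clear * - hkey
    revert hkey
    revert S c e
    decide

end Pool.Agent.N17.HC
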