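import Pool.Agent.Y715.T.RecG
import Pool.Agent.N17.HC.Stm

/-!
# Project HC: statements (2), with cubic residue symbols

`Ei = ℤ[w]`, `w` a primitive third root of unity; `nr` the norm; `cs π x` the additive cubic residue
symbol, `x ^ ((nr π - 1) / 3) ≡ w ^ (cs π x)` modulo `π`; `Pq π`: `π` is prime and `π ≡ 1` modulo `3`.
-/

set_option autoImplicit false

open Polynomial Filter

namespace Pool.Agent.N17.HC

open Pool.Agent.Y692.QS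
open Pool.Agent.Y715.T.Rec (cs)
open Pool.Agent.Y715.T.RecG (Pq)

/-- the supplementary character modulo `9` -/
def lam9 (n : ℕ) : ZMod 3 :=
  if n % 9 = 2 ∨ n % 9 = 7 then 2 else if n % 9 = 4 ∨ n % 9 = 5 then 1 else 0

/-- a finite set of primary primes of degree one with different norms -/
def Good {n : ℕ} (ρ : Fin n → Ei) : Prop :=
  (∀ i, Pq (ρ i)) ∧ (∀ i, (nr (ρ i)).natAbs.Prime) ∧ ∀ i j, i ≠ j → nr (ρ i) ≠ nr (ρ j)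

/-- **FAC**: elements of `ℤ[w]` whose norm is a cube, modulo cubes. -/
def S_FAC : Prop :=
  ∀ (α : Ei) (A : ℤ), α ≠ 0 → nr α = A ^ 3 →
    ∃ (n : ℕ) (ρ : Fin n → Ei) (e : ZMod 3) (g : Ei), Good ρ ∧ g ≠ 0 ∧
      (∀ i, ρ i ∣ α ∧ ρ i ∣ star α) ∧
      α * ∏ i, star (ρ i) = w ^ e.val * (∏ i, ρ i) * g ^ 3

/-- **CUBE**: if the cubic polynomial with the square discriminant `s ^ 2` splits modulo `p`, then
the Lagrange resolvent `α` is a cube modulo `p`. -/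
def S_CUBE : Prop :=
  ∀ (a b c s : ℤ) (α : Ei), disc3 a b c = s ^ 2 →
    2 * α = ⟨2 * a ^ 3 - 9 * a * b + 27 * c + 3 * s, 6 * s⟩ →
    (∀ p : ℕ, p.Prime → 3 < p → Spl3 p a b c → ∃ θ : Ei, (p : Ei) ∣ α - θ ^ 3) ∧
    nr α = (a ^ 2 - 3 * b) ^ 3 ∧ α - star α = 3 * s * ⟨1, 2⟩ ∧
    ∀ g : Ei, α = g ^ 3 → ∃ m : ℤ, m ^ 3 - a * m ^ 2 + b * m - c = 0

/-- **REC**: reciprocity. -/
def S_REC : Prop :=
  ∀ (α : Ei) (n : ℕ) (ρ : Fin n → Ei) (e : ZMod 3) (g : Ei), Good ρ →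
    α * ∏ i, star (ρ i) = w ^ e.val * (∏ i, ρ i) * g ^ 3 →
    ∀ p : ℕ, p.Prime → 3 < p → ¬ (p : ℤ) ∣ nr α → (∀ i, ¬ (p : ℤ) ∣ nr (ρ i)) →
    (∃ θ : Ei, (p : Ei) ∣ α - θ ^ 3) → e * lam9 p + ∑ i, cs (ρ i) (p : Ei) = 0

/-- **CHR**: the Dirichlet character. -/
def S_CHR : Prop :=
  ∀ (n : ℕ) (ρ : Fin n → Ei) (e : ZMod 3), Good ρ → (e ≠ 0 ∨ n ≠ 0) →
    ∃ χ : DirichletCharacter ℂ (9 * ∏ i, (nr (ρ i)).natAbs), χ ≠ 1 ∧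
      ∀ p : ℕ, p.Coprime (9 * ∏ i, (nr (ρ i)).natAbs) →
        e * lam9 p + ∑ i, cs (ρ i) (p : Ei) = 0 → χ p = 1

/-- **DIV**: norms of common divisors. -/
def S_DIV : Prop :=
  ∀ (n : ℕ) (ρ : Fin n → Ei) (s : ℤ) (α : Ei), Good ρ → (∀ i, ρ i ∣ α ∧ ρ i ∣ star α) →
    α - star α = 3 * s * ⟨1, 2⟩ → ∏ i, (nr (ρ i)).natAbs ∣ s.natAbs

end Pool.Agent.N17.HC
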